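import Pool.Agent.Run7.h233.Path
import Pool.Agent.Helper597_torsymp.Gen

/-!
# Averages of the derivative
-/

set_option autoImplicit false

open Set Filter Topology MeasureTheory
open scoped ContDiff NNReal

namespace Pool.Agent.Run7.h233

open Pool.Agent.Helper597_torsymp

variable {n : ℕ}

/-- boundedness of continuous periodic maps -/
theorem bdd_of_per {E : Type*} [NormedAddCommGroup E] {f : V n → E} (hf : Continuous f)
    (hp : ∀ (x : V n) (k : Fin n ⊕ Fin n → ℤ), f (x + lat k) = f x) : ∃ C, ∀ x, ‖f x‖ ≤ C := by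
  refine bdd_of_periods hf (K := Icc (0 : V n) 1) isCompact_Icc
    (Λ := {q | ∃ k : Fin n ⊕ Fin n → ℤ, q = lat k}) ?_ ?_
  · rintro _ ⟨k, rfl⟩ p
    exact hp p k
  · intro p
    obtain ⟨k, hk⟩ := exists_frac p
    exact ⟨lat k, ⟨k, rfl⟩, hk⟩

/-- the derivative of a periodic map is periodic -/
theorem fderiv_per {E : Type*} [NormedAddCommGroup E] [NormedSpace ℝ E] {f : V n → E}
    (hp : ∀ (x : V n) (k : Fin n ⊕ Fin n → ℤ), f (x + lat k) = f x) (x : V n)
    (k : Fin n ⊕ Fin n → ℤ) : fderiv ℝ f (x + lat k) = fderiv ℝ f x := by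
  have h1 : (fun x => f (x + lat k)) = f := funext fun x => hp x k
  have h2 := fderiv_comp_add_right (𝕜 := ℝ) (f := f) (x := x) (lat k)
  rw [h1] at h2
  exact h2.symm

/-- differentiation of averages -/
theorem hasFDerivAt_average {E : Type*} [NormedAddCommGroup E] [NormedSpace ℝ E]
    [CompleteSpace E] {f : V n → E} (hf : ContDiff ℝ ∞ f)
    (hp : ∀ (x : V n) (k : Fin n ⊕ Fin n → ℤ), f (x + lat k) = f x) (μ : Measure (V n))
    [IsProbabilityMeasure μ] (x : V n) :
    HasFDerivAt (fun y => ∫ z, f (y + z) ∂μ) (∫ z, fderiv ℝ f (x + z) ∂μ) x := by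
  have hd : Continuous (fderiv ℝ f) := hf.continuous_fderiv (by simp)
  obtain ⟨C, hC⟩ := bdd_of_per hd (fderiv_per hp)
  obtain ⟨C', hC'⟩ := bdd_of_per hf.continuous hp
  refine hasFDerivAt_integral_of_dominated_of_fderiv_le (𝕜 := ℝ)
    (F' := fun y z => fderiv ℝ f (y + z)) (bound := fun _ => C)
    (Metric.ball_mem_nhds x one_pos) ?_ ?_ ?_ ?_ ?_ ?_
  · refine Filter.Eventually.of_forall fun y => ?_
    exact (hf.continuous.comp (continuous_const.add continuous_id)).aestronglyMeasurable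
  · refine Integrable.of_bound
      (hf.continuous.comp (continuous_const.add continuous_id)).aestronglyMeasurable C' ?_
    exact Filter.Eventually.of_forall fun z => hC' _
  · exact (hd.comp (continuous_const.add continuous_id)).aestronglyMeasurable
  · exact Filter.Eventually.of_forall fun z y _ => hC _
  · exact integrable_const _
  · refine Filter.Eventually.of_forall fun z y _ => ?_
    have h1 : HasFDerivAt f (fderiv ℝ f (y + z)) (y + z) :=
      ((hf.differentiable (by simp)) _).hasFDerivAt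
    exact (hasFDerivAt_comp_add_right (f := f) (a := z)).2 h1

/-- if `G` commutes with the translations by `L` then its derivatives fix `L` -/
theorem le_Fx {G : V n → V n} (hG : Differentiable ℝ G) {L : Submodule ℝ (V n)}
    (h : ∀ u ∈ L, ∀ x, G (x + u) = G x + u) : L ≤ Fx G := by
  intro u hu x
  have h1 : ∀ s : ℝ, G (x + s • u) = G x + s • u := fun s => h _ (L.smul_mem s hu) x
  have h2 : HasDerivAt (fun s : ℝ => x + s • u) u 0 := by
    have := ((hasDerivAt_id (0 : ℝ)).smul_const u).const_add x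
    simpa using this
  have h3 : HasDerivAt (fun s : ℝ => G (x + s • u)) (fderiv ℝ G x u) 0 := by
    have h4 : HasFDerivAt G (fderiv ℝ G x) (x + (0 : ℝ) • u) := by
      rw [zero_smul, add_zero]
      exact (hG x).hasFDerivAt
    exact h4.comp_hasDerivAt (0 : ℝ) h2
  have h5 : HasDerivAt (fun s : ℝ => G x + s • u) u 0 := by
    have := ((hasDerivAt_id (0 : ℝ)).smul_const u).const_add (G x)
    simpa using this
  have h6 : (fun s : ℝ => G (x + s • u)) = fun s : ℝ => G x + s • u := funext h1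
  rw [h6] at h3
  exact h3.unique h5

/-- **The averaging criterion.** -/
theorem isotopic_of_average (hn : 0 < n) {ψ : V n → V n} (hψ : IsTorusSymp 1 ψ)
    (μ : ℝ → Measure (V n)) (hprob : ∀ t ∈ Icc (0 : ℝ) 1, IsProbabilityMeasure (μ t))
    (hsm : ∀ φ : V n → ℝ, SmoothPer φ → ∃ Θ : ℝ × V n → ℝ, ContDiff ℝ ∞ Θ ∧
      ∀ t ∈ Icc (0 : ℝ) 1, ∀ x, Θ (t, x) = ∫ z, φ (x + z) ∂μ t)
    (h0 : ∀ φ : V n → ℝ, SmoothPer φ → ∫ z, φ z ∂μ 0 = φ 0)
    (L : Submodule ℝ (V n)) (hiso : ∀ u ∈ L, ∀ v ∈ L, om u v = 0)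
    (hd : n - 1 ≤ Module.finrank ℝ L)
    (h1 : ∀ u ∈ L, ∀ φ : V n → ℝ, SmoothPer φ → ∫ z, φ (u + z) ∂μ 1 = ∫ z, φ z ∂μ 1)
    (hnr : ∀ t ∈ Icc (0 : ℝ) 1, ∀ x, NR fun v => ∫ z, fderiv ℝ ψ (x + z) v ∂μ t) :
    SymplecticallyIsotopic 1 id ψ := by
  -- the periodic part
  set p : V n → V n := fun x => ψ x - x with hp
  have hps : ContDiff ℝ ∞ p := hψ.smooth.sub contDiff_id
  have hpp : ∀ (x : V n) (k : Fin n ⊕ Fin n → ℤ), p (x + lat k) = p x := by
    intro x k
    simp only [hp]
    rw [hψ.equivariant, Matrix.one_mulVec, add_sub_add_right_eq_sub]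
  have hpα : ∀ α, SmoothPer (fun x => p x α) := fun α =>
    ⟨(contDiff_apply ℝ ℝ α).comp hps, fun x k => by simp only [hpp]⟩
  choose Θ hΘ hΘe using fun α => hsm _ (hpα α)
  set F : ℝ × V n → V n := fun z => z.2 + fun α => Θ α z with hF
  have hFs : ContDiff ℝ ∞ F := contDiff_snd.add (contDiff_pi.2 hΘ)
  obtain ⟨C', hC'⟩ := bdd_of_per hps.continuous hpp
  have hint : ∀ t ∈ Icc (0 : ℝ) 1, ∀ x, Integrable (fun z => p (x + z)) (μ t) := by
    intro t ht x
    have := hprob t ht
    refine Integrable.of_bound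
      (hps.continuous.comp (continuous_const.add continuous_id)).aestronglyMeasurable C' ?_
    exact Filter.Eventually.of_forall fun z => hC' _
  have hFe : ∀ t ∈ Icc (0 : ℝ) 1, ∀ x, F (t, x) = x + ∫ z, p (x + z) ∂μ t := by
    intro t ht x
    simp only [hF]
    congr 1
    funext α
    rw [hΘe α t ht x]
    have := (ContinuousLinearMap.proj (R := ℝ) (φ := fun _ : Fin n ⊕ Fin n => ℝ)
      α).integral_comp_comm (hint t ht x)
    exact this
  have hequi : ∀ t ∈ Icc (0 : ℝ) 1, ∀ x (k : Fin n ⊕ Fin n → ℤ),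
      F (t, x + lat k) = F (t, x) + lat k := by
    intro t ht x k
    rw [hFe t ht, hFe t ht]
    have : (fun z => p (x + lat k + z)) = fun z => p (x + z) := by
      funext z
      rw [add_right_comm, hpp]
    rw [this]
    abel
  have hNR : ∀ t ∈ Icc (0 : ℝ) 1, ∀ x, NR (fderiv ℝ (fun y => F (t, y)) x) := by
    intro t ht x
    have := hprob t ht
    have e1 : (fun y => F (t, y)) = fun y => y + ∫ z, p (y + z) ∂μ t :=
      funext fun y => hFe t ht y
    have hd1 := (hasFDerivAt_id x).add (hasFDerivAt_average hps hpp (μ t) x)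
    have hd2 : HasFDerivAt (fun y => y + ∫ z, p (y + z) ∂μ t)
      (ContinuousLinearMap.id ℝ (V n) + ∫ z, fderiv ℝ p (x + z) ∂μ t) x := hd1
    rw [e1, hd2.fderiv]
    have hc : Continuous (fderiv ℝ p) := hps.continuous_fderiv (by simp)
    obtain ⟨C, hC⟩ := bdd_of_per hc (fderiv_per hpp)
    have hi : Integrable (fun z => fderiv ℝ p (x + z)) (μ t) := by
      refine Integrable.of_bound
        (hc.comp (continuous_const.add continuous_id)).aestronglyMeasurable C ?_
      exact Filter.Eventually.of_forall fun z => hC _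
    have e2 : (fun v => ∫ z, fderiv ℝ ψ (x + z) v ∂μ t) =
        fun v => (ContinuousLinearMap.id ℝ (V n) + ∫ z, fderiv ℝ p (x + z) ∂μ t) v := by
      funext v
      have h5 : ∀ z, fderiv ℝ ψ (x + z) v = v + fderiv ℝ p (x + z) v := by
        intro z
        have h6 : HasFDerivAt p (fderiv ℝ ψ (x + z) - ContinuousLinearMap.id ℝ (V n)) (x + z) :=
          (hψ.diff _).hasFDerivAt.sub (hasFDerivAt_id _)
        rw [h6.fderiv]
        simp
      simp only [h5]
      rw [integral_add (integrable_const _) (hi.apply_continuousLinearMap v)]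
      simp only [integral_const, probReal_univ, one_smul]
      rw [add_apply, ContinuousLinearMap.integral_apply hi]
      rfl
    have h3 := hnr t ht x
    rw [e2] at h3
    exact h3
  have e0 : (fun x => F (0, x)) = ψ := by
    funext x
    rw [hFe 0 ⟨le_rfl, zero_le_one⟩]
    have h2 : ∫ z, p (x + z) ∂μ 0 = p x := by
      funext α
      have h3 := (ContinuousLinearMap.proj (R := ℝ) (φ := fun _ : Fin n ⊕ Fin n => ℝ)
        α).integral_comp_comm (hint 0 ⟨le_rfl, zero_le_one⟩ x)
      have h4 := h0 (fun z => p (x + z) α) ⟨(contDiff_apply ℝ ℝ α).comp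
        (hps.comp (contDiff_const.add contDiff_id)), fun y k => by
          simp only
          rw [← add_assoc, hpp]⟩
      simp only [add_zero] at h4
      rw [← h4]
      exact h3.symm
    rw [h2, hp]
    simp
  obtain ⟨G, hG0, hG1, -⟩ := exists_path hFs hequi hNR (by rw [e0]; exact hψ)
  rw [e0] at hG0
  have hGs := hG0.right
  have hL : L ≤ Fx G := by
    refine le_Fx hGs.diff fun u hu x => hG1 u (fun y => ?_) x
    have m1 : (1 : ℝ) ∈ Icc (0 : ℝ) 1 := ⟨zero_le_one, le_rfl⟩
    rw [hFe 1 m1, hFe 1 m1]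
    have h2 : ∫ z, p (y + u + z) ∂μ 1 = ∫ z, p (y + z) ∂μ 1 := by
      funext α
      have h3 := (ContinuousLinearMap.proj (R := ℝ) (φ := fun _ : Fin n ⊕ Fin n => ℝ)
        α).integral_comp_comm (hint 1 m1 y)
      have h3' := (ContinuousLinearMap.proj (R := ℝ) (φ := fun _ : Fin n ⊕ Fin n => ℝ)
        α).integral_comp_comm (hint 1 m1 (y + u))
      have h4 := h1 u hu (fun z => p (y + z) α) ⟨(contDiff_apply ℝ ℝ α).comp
        (hps.comp (contDiff_const.add contDiff_id)), fun y' k => by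
          simp only
          rw [← add_assoc, hpp]⟩
      simp only [← add_assoc] at h4
      exact (h3'.symm.trans h4).trans h3
    rw [h2]
    abel
  exact ((isotopic_of_Fx hGs hn hL hiso hd).trans hG0.symm)

end Pool.Agent.Run7.h233
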