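import Pool.Agent.Run7.h233.Spec

/-!
# Symplectic planes and compressed blocks
-/

set_option autoImplicit false

open Set Filter Topology
open scoped ContDiff NNReal

namespace Pool.Agent.Run7.h233

open Pool.Agent.Helper597_torsymp

variable {n : ℕ}

/-! ### Positivity -/

theorem at_pos {α τ t : ℝ} (ht0 : 0 ≤ t) (ht1 : t ≤ 1)
    (hχ : ∀ c : ℝ, 0 ≤ c → 0 < c ^ 2 + c * τ + α) :
    0 < (1 - t) ^ 2 + t * (1 - t) * τ + t ^ 2 * α := by
  rcases eq_or_lt_of_le ht0 with h | h
  · rw [← h]
    norm_num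
  · have h1 := hχ ((1 - t) / t) (div_nonneg (by linarith) ht0)
    have h2 : (1 - t) ^ 2 + t * (1 - t) * τ + t ^ 2 * α =
        t ^ 2 * (((1 - t) / t) ^ 2 + (1 - t) / t * τ + α) := by
      field_simp
    rw [h2]
    positivity

theorem q_pos {α τ t c : ℝ} (ht0 : 0 ≤ t) (ht1 : t ≤ 1) (hc : 0 ≤ c)
    (hχ : ∀ c : ℝ, 0 ≤ c → 0 < c ^ 2 + c * τ + α) :
    0 < (1 + c) * ((1 - t) ^ 2 + t * (1 - t) * τ + t ^ 2 * α) + c * (1 + c) +
      c * t ^ 2 * (1 - α) := by
  have h1 := at_pos ht0 ht1 hχ
  have hα : 0 < α := by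
    have := hχ 0 le_rfl
    simpa using this
  rcases le_or_gt α 1 with h2 | h2
  · have h3 : 0 ≤ c * t ^ 2 * (1 - α) :=
      mul_nonneg (mul_nonneg hc (sq_nonneg t)) (by linarith)
    have h4 : 0 ≤ c * (1 + c) := mul_nonneg hc (by linarith)
    have h5 := mul_pos (show 0 < 1 + c by linarith) h1
    linarith
  · rcases eq_or_lt_of_le ht0 with h | h
    · rw [← h]
      nlinarith
    rcases eq_or_lt_of_le ht1 with h' | h'
    · rw [h']
      nlinarith
    set r : ℝ := Real.sqrt α with hr
    have hr2 : r ^ 2 = α := Real.sq_sqrt hα.le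
    have hr0 : 0 < r := Real.sqrt_pos.2 hα
    have hτ : -(2 * r) < τ := by
      have h3 := hχ r hr0.le
      rw [← hr2] at h3
      nlinarith
    have h3 : (t * r - (1 - t)) ^ 2 < (1 - t) ^ 2 + t * (1 - t) * τ + t ^ 2 * α := by
      have h4 : 0 < t * (1 - t) := mul_pos h (by linarith)
      rw [← hr2]
      nlinarith
    have h4 : (1 + c) * (t * r - (1 - t)) ^ 2 <
        (1 + c) * ((1 - t) ^ 2 + t * (1 - t) * τ + t ^ 2 * α) :=
      mul_lt_mul_of_pos_left h3 (by linarith)
    have h5 : 0 ≤ (1 + c) * (t * r - (1 - t)) ^ 2 + c * (1 + c) + c * t ^ 2 * (1 - α) := by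
      rw [← hr2]
      set p : ℝ := t * (1 + r) with hp
      have hp0 : 0 < p := mul_pos h (by linarith)
      have e1 : (1 + c) * (t * r - (1 - t)) ^ 2 + c * (1 + c) + c * t ^ 2 * (1 - r ^ 2) =
          c ^ 2 + 2 * c * (1 - (1 - t) * p) + (p - 1) ^ 2 := by
        rw [hp]
        ring
      rw [e1]
      rcases le_or_gt ((2 - t) * p) 2 with h6 | h6
      · have h7 : (1 - t) * p ≤ 1 := by nlinarith
        have h8 : 0 ≤ c * (1 - (1 - t) * p) := mul_nonneg hc (by linarith)
        nlinarith [sq_nonneg c, sq_nonneg (p - 1)]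
      · have h7 : 0 ≤ t * p * ((2 - t) * p - 2) :=
          mul_nonneg (mul_nonneg ht0 hp0.le) (by linarith)
        nlinarith [sq_nonneg (c + (1 - (1 - t) * p))]
    linarith

/-! ### Planes -/

/-- the projection onto the plane spanned by `p` and `q`, with `ω (p, q) = 1`, along the
symplectic complement -/
def pr (p q v : V n) : V n := om v q • p + om p v • q

theorem om_self' (v : V n) : om v v = 0 := by
  have := om_anti v v
  linarith

theorem om_pr_left {p q : V n} (u v : V n) : om (pr p q u) v = om u (pr p q v) := by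
  unfold pr
  simp only [om_add_left, om_add_right, om_smul_left, om_smul_right]
  rw [om_anti q v, om_anti u p]
  ring

theorem pr_add {p q : V n} (u v : V n) : pr p q (u + v) = pr p q u + pr p q v := by
  unfold pr
  rw [om_add_left, om_add_right]
  module

theorem pr_smul {p q : V n} (c : ℝ) (v : V n) : pr p q (c • v) = c • pr p q v := by
  unfold pr
  rw [om_smul_left, om_smul_right]
  module

theorem pr_sub {p q : V n} (u v : V n) : pr p q (u - v) = pr p q u - pr p q v := by
  unfold pr
  rw [om_sub_left, om_sub_right]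
  module

theorem om_pr_q {p q : V n} (hpq : om p q = 1) (v : V n) : om (pr p q v) q = om v q := by
  unfold pr
  simp only [om_add_left, om_smul_left, om_self', hpq]
  ring

theorem om_p_pr {p q : V n} (hpq : om p q = 1) (v : V n) : om p (pr p q v) = om p v := by
  unfold pr
  simp only [om_add_right, om_smul_right, om_self', hpq]
  ring

theorem pr_p {p q : V n} (hpq : om p q = 1) : pr p q p = p := by
  unfold pr
  rw [hpq, om_self']
  module

theorem pr_q {p q : V n} (hpq : om p q = 1) : pr p q q = q := by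
  unfold pr
  rw [hpq, om_self']
  module

theorem pr_pr {p q : V n} (hpq : om p q = 1) (z : V n) : pr p q (pr p q z) = pr p q z := by
  change om (pr p q z) q • p + om p (pr p q z) • q = pr p q z
  rw [om_pr_q hpq, om_p_pr hpq]
  rfl

/-- **The plane lemma.** -/
theorem plane_NR {X : V n →L[ℝ] V n} (hX : ∀ u v, om (X u) (X v) = om u v) {p q : V n}
    (hpq : om p q = 1)
    (hχ : ∀ c : ℝ, 0 ≤ c → 0 < c ^ 2 + c * (om (X p) q + om p (X q)) +
      (om (X p) q * om p (X q) - om (X q) q * om p (X p)))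
    {t : ℝ} (ht : t ∈ Icc (0 : ℝ) 1) :
    NR fun v => v + t • pr p q (X v - v) := by
  obtain ⟨e, he⟩ := exists_lequiv hX
  obtain ⟨ht0, ht1⟩ := ht
  intro v hv c hc
  by_contra hcon
  push Not at hcon
  set y : V n := v + t • pr p q (X v - v) with hy
  obtain ⟨qh, hqh⟩ := e.surjective q
  obtain ⟨ph, hph⟩ := e.surjective p
  rw [he] at hqh hph
  set a11 := om (X p) q with ha11
  set a22 := om p (X q) with ha22
  set a12 := om (X q) q with ha12
  set a21 := om p (X p) with ha21
  -- the four scalars of `pr qh` and `pr ph`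
  have k1 : om qh q = -a12 := by
    rw [← hX qh q, hqh, om_anti]
  have k2 : om p qh = a11 := by
    rw [← hX p qh, hqh]
  have k3 : om ph q = a22 := by
    rw [← hX ph q, hph]
  have k4 : om p ph = -a21 := by
    rw [← hX p ph, hph, om_anti]
  -- coordinates
  set v1 := om v q with hv1
  set v2 := om p v with hv2
  set x1 := om y q with hx1
  set x2 := om p y with hx2
  set g1 := om v qh with hg1
  set g2 := om ph v with hg2
  have m1 : om (X v) q = g1 := by rw [hg1, ← hX v qh, hqh]
  have m2 : om p (X v) = g2 := by rw [hg2, ← hX ph v, hph]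
  have f1 : x1 = v1 + t * (g1 - v1) := by
    rw [hx1, hy, om_add_left, om_smul_left, om_pr_q hpq, om_sub_left, m1]
  have f2 : x2 = v2 + t * (g2 - v2) := by
    rw [hx2, hy, om_add_right, om_smul_right, om_p_pr hpq, om_sub_right, m2]
  have yq : om y p = -x2 := om_anti _ _
  have vp : om v p = -v2 := om_anti _ _
  -- pairing with `q`
  have E1 := hcon q
  have E2 := hcon p
  have E3 := hcon qh
  have E4 := hcon ph
  have d1 : om y (q + t • pr p q (X q - q)) = x1 + t * (a12 * (-x2) + a22 * x1 - x1) := by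
    rw [om_add_right, om_smul_right, ← om_pr_left, om_sub_right]
    unfold pr
    simp only [om_add_left, om_smul_left]
    rw [← hx1, ← hx2, ← ha22, om_anti q (X q), ← ha12, om_self', hpq]
    ring
  have d2 : om y (p + t • pr p q (X p - p)) = -x2 + t * (a11 * (-x2) + a21 * x1 + x2) := by
    rw [om_add_right, om_smul_right, ← om_pr_left, om_sub_right]
    unfold pr
    simp only [om_add_left, om_smul_left]
    rw [← hx1, ← hx2, ← ha21, om_anti q (X p), ← ha11, om_self', om_anti q p, hpq, yq]
    ring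
  have hXph : om y (X qh - qh) = x1 - om y qh := by rw [hqh, om_sub_right]
  have g3 : ∀ z : V n, om y z = om v z + t * (g1 * om p z + g2 * om q z - v1 * om p z
      - v2 * om q z) := by
    intro z
    rw [hy, om_add_left, om_smul_left]
    unfold pr
    simp only [om_add_left, om_smul_left, om_sub_left, om_sub_right]
    rw [m1, m2, ← hv1, ← hv2]
    ring
  have d3 : om y (qh + t • pr p q (X qh - qh)) =
      (g1 + t * (g1 * a11 + g2 * a12 - v1 * a11 - v2 * a12)) +
        t * (x1 - (a12 * x2 + a11 * x1)) := by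
    rw [om_add_right, om_smul_right, hqh, g3 qh, k2, om_anti q qh, k1, ← om_pr_left]
    unfold pr
    simp only [om_add_left, om_smul_left, om_sub_right]
    rw [← hx1, ← hx2, hpq, om_self', k2, om_anti q qh, k1]
    ring
  have d4 : om y (ph + t • pr p q (X ph - ph)) =
      (-g2 + t * (g1 * (-a21) - g2 * a22 + v1 * a21 + v2 * a22)) +
        t * (-x2 + (a21 * x1 + a22 * x2)) := by
    rw [om_add_right, om_smul_right, hph, g3 ph, k4, om_anti q ph, k3, ← om_pr_left]
    unfold pr
    simp only [om_add_left, om_smul_left, om_sub_right]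
    rw [← hx1, ← hx2, om_anti q p, hpq, om_self', k4, om_anti q ph, k3, om_anti v ph, ← hg2]
    ring
  rw [d1, ← hv1] at E1
  rw [d2, vp] at E2
  rw [d3, ← hg1] at E3
  rw [d4, om_anti v ph, ← hg2] at E4
  set α := a11 * a22 - a12 * a21 with hα
  set τ := a11 + a22 with hτ
  have hq := q_pos (α := α) (τ := τ) ht0 ht1 hc hχ
  have ha := at_pos (α := α) (τ := τ) ht0 ht1 hχ
  -- the two equations for `x`
  have F1 : (1 + c + t ^ 2 * (1 - α)) * x1 =
      (1 + c) * ((1 - t + t * a11) * v1 + t * a12 * v2) := by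
    rw [hα]
    linear_combination t * E3 + (1 + c + t * a11) * f1 + t * a12 * f2 - t * a11 * E1 +
      t * a12 * E2
  have F2 : (1 + c + t ^ 2 * (1 - α)) * x2 =
      (1 + c) * ((1 - t + t * a22) * v2 + t * a21 * v1) := by
    rw [hα]
    linear_combination -t * E4 + t * a21 * f1 + (1 + c + t * a22) * f2 - t * a21 * E1 +
      t * a22 * E2
  have G1 : ((1 + c) * ((1 - t) ^ 2 + t * (1 - t) * τ + t ^ 2 * α) + c * (1 + c) +
      c * t ^ 2 * (1 - α)) * x1 = 0 := by
    rw [hα, hτ] at *
    linear_combination (1 + c) * ((1 - t + t * a11) * E1 - t * a12 * E2) + c * F1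
  have G2 : ((1 + c) * ((1 - t) ^ 2 + t * (1 - t) * τ + t ^ 2 * α) + c * (1 + c) +
      c * t ^ 2 * (1 - α)) * x2 = 0 := by
    rw [hα, hτ] at *
    linear_combination (1 + c) * (t * a21 * E1 - (1 - t + t * a22) * E2) + c * F2
  have X1 : x1 = 0 := (mul_eq_zero.1 G1).resolve_left hq.ne'
  have X2 : x2 = 0 := (mul_eq_zero.1 G2).resolve_left hq.ne'
  rw [X1, mul_zero] at F1
  rw [X2, mul_zero] at F2
  have hc1 : (1 + c : ℝ) ≠ 0 := by positivity
  have F1' := (mul_eq_zero.1 F1.symm).resolve_left hc1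
  have F2' := (mul_eq_zero.1 F2.symm).resolve_left hc1
  have V1 : v1 = 0 := by
    have : ((1 - t) ^ 2 + t * (1 - t) * τ + t ^ 2 * α) * v1 = 0 := by
      rw [hα, hτ]
      linear_combination (1 - t + t * a22) * F1' - t * a12 * F2'
    exact (mul_eq_zero.1 this).resolve_left ha.ne'
  have V2 : v2 = 0 := by
    have : ((1 - t) ^ 2 + t * (1 - t) * τ + t ^ 2 * α) * v2 = 0 := by
      rw [hα, hτ]
      linear_combination (1 - t + t * a11) * F2' - t * a21 * F1'
    exact (mul_eq_zero.1 this).resolve_left ha.ne'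
  have hpy : pr p q y = 0 := by
    unfold pr
    rw [← hx1, ← hx2, X1, X2, zero_smul, zero_smul, add_zero]
  have hpv : pr p q v = 0 := by
    unfold pr
    rw [← hv1, ← hv2, V1, V2, zero_smul, zero_smul, add_zero]
  have hyv : y = v := by
    have h1 : pr p q y = pr p q v + t • pr p q (X v - v) := by
      rw [hy, pr_add, pr_smul, pr_pr hpq]
    rw [hpy, hpv, zero_add] at h1
    rw [hy, ← h1, add_zero]
  apply hv
  refine om_nondeg v fun w => ?_
  have h2 := hcon w
  rw [om_add_right, om_smul_right, ← om_pr_left, hpy, om_zero_left, mul_zero, add_zero, hyv] at h2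
  have h3 : (1 + c) * om v w = 0 := by linarith
  exact (mul_eq_zero.1 h3).resolve_left hc1

end Pool.Agent.Run7.h233
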