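import Pool.Agent.Run7.h233.Block
import Pool.Agent.Helper597_torsymp.Fol

/-!
# The block criterion in dimension four
-/

set_option autoImplicit false

open Set Filter Topology
open scoped ContDiff NNReal

namespace Pool.Agent.Run7.h233

open Pool.Agent.Helper597_torsymp

variable {n : ℕ}

/-- a quadratic polynomial without zeros on the half line is positive there -/
theorem chi_pos {α τ : ℝ} (h : ∀ c : ℝ, 0 ≤ c → c ^ 2 + c * τ + α ≠ 0) (c : ℝ) (hc : 0 ≤ c) :
    0 < c ^ 2 + c * τ + α := by
  by_contra hneg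
  push Not at hneg
  set C : ℝ := c + |τ| + |α| + 1 with hC
  have h1 : 0 < C ^ 2 + C * τ + α := by
    have e1 := neg_abs_le τ
    have e2 := neg_abs_le α
    have e3 := abs_nonneg τ
    have e4 := abs_nonneg α
    have hC1 : 1 ≤ C := by linarith
    have h2 : C * (c + |α| + 1) ≤ C ^ 2 + C * τ := by nlinarith
    nlinarith
  have hcC : c ≤ C := by
    have e3 := abs_nonneg τ
    have e4 := abs_nonneg α
    linarith
  have hcont : ContinuousOn (fun c : ℝ => c ^ 2 + c * τ + α) (Icc c C) := by fun_prop
  obtain ⟨d, hd, hd0⟩ := intermediate_value_Icc hcC hcont ⟨hneg, h1.le⟩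
  exact h d (hc.trans hd.1) hd0

/-- positivity of the characteristic polynomial of a compressed block without nonpositive real
eigenvalues -/
theorem chi_of_block {X : V n →L[ℝ] V n} {p q : V n} (hpq : om p q = 1)
    (h : ∀ v : V n, pr p q v = v → v ≠ 0 → ∀ c : ℝ, 0 ≤ c → pr p q (X v) ≠ -(c • v)) (c : ℝ)
    (hc : 0 ≤ c) : 0 < c ^ 2 + c * (om (X p) q + om p (X q)) +
      (om (X p) q * om p (X q) - om (X q) q * om p (X p)) := by
  refine chi_pos (fun c hc hz => ?_) c hc
  set a11 := om (X p) q with ha11
  set a22 := om p (X q) with ha22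
  set a12 := om (X q) q with ha12
  set a21 := om p (X p) with ha21
  -- a vector `v1 p + v2 q` of the kernel contradicts the assumption
  have key : ∀ v1 v2 : ℝ, (v1 ≠ 0 ∨ v2 ≠ 0) → (a11 + c) * v1 + a12 * v2 = 0 →
      a21 * v1 + (a22 + c) * v2 = 0 → False := by
    intro v1 v2 hv h1 h2
    have e1 : om (v1 • p + v2 • q) q = v1 := by
      rw [om_add_left, om_smul_left, om_smul_left, hpq, om_self']
      ring
    have e2 : om p (v1 • p + v2 • q) = v2 := by
      rw [om_add_right, om_smul_right, om_smul_right, hpq, om_self']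
      ring
    refine h (v1 • p + v2 • q) ?_ ?_ c hc ?_
    · unfold pr
      rw [e1, e2]
    · intro h0
      rw [h0, om_zero_left] at e1
      have e3 : om p (0 : V n) = 0 := by rw [om_anti, om_zero_left, neg_zero]
      rw [h0, e3] at e2
      rcases hv with hv | hv
      · exact hv e1.symm
      · exact hv e2.symm
    · unfold pr
      rw [map_add, map_smul, map_smul]
      simp only [om_add_left, om_add_right, om_smul_left, om_smul_right]
      rw [← ha11, ← ha12, ← ha21, ← ha22]
      have e3 : v1 * a11 + v2 * a12 = -(c * v1) := by linarith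
      have e4 : v1 * a21 + v2 * a22 = -(c * v2) := by linarith
      rw [e3, e4]
      module
  by_cases h1 : a12 = 0 ∧ a11 + c = 0
  · by_cases h2 : a22 + c = 0
    · exact key 0 1 (Or.inr one_ne_zero) (by rw [h1.1]; ring) (by rw [h2]; ring)
    · refine key (a22 + c) (-a21) (Or.inl h2) ?_ (by ring)
      rw [h1.1, h1.2]
      ring
  · refine key (-a12) (a11 + c) ?_ (by ring) ?_
    · by_contra hcon
      push Not at hcon
      exact h1 ⟨by linarith [hcon.1], hcon.2⟩
    · linear_combination hz

/-- composition with a symplectic map -/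
theorem NR_comp {K : V n → V n} {X : V n →L[ℝ] V n} (hX : ∀ u v, om (X u) (X v) = om u v)
    (hK : NR K) : NR fun v => K (X v) := by
  obtain ⟨e, he⟩ := exists_lequiv hX
  intro v hv c hc
  have hXv : X v ≠ 0 := by
    rw [← he]
    intro h
    exact hv (by simpa using h)
  obtain ⟨w, hw⟩ := hK (X v) hXv c hc
  obtain ⟨w', hw'⟩ := e.surjective w
  rw [he] at hw'
  refine ⟨w', ?_⟩
  show om (K (X v)) (K (X w')) ≠ -c * om v w'
  rw [← hX v w', hw']
  exact hw

/-- **Normal form of an orthogonal projection of `ℝ⁴`.** -/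
theorem exists_planes (π : V 2 →ₗ[ℝ] V 2) (hπ : ∀ v, π (π v) = π v)
    (hs : ∀ u v, om (π u) v = om u (π v)) (h0 : π ≠ 0) (h1 : π ≠ LinearMap.id) :
    ∃ p q p' q' : V 2, om p q = 1 ∧ om p' q' = 1 ∧ (∀ v, π v = pr p q v) ∧
      ∀ v, v - π v = pr p' q' v := by
  obtain ⟨u, hu⟩ : ∃ u, π u ≠ 0 := by
    by_contra hcon
    push Not at hcon
    exact h0 (LinearMap.ext hcon)
  obtain ⟨u', hu'⟩ : ∃ u, u - π u ≠ 0 := by
    by_contra hcon
    push Not at hcon
    exact h1 (LinearMap.ext fun v => (sub_eq_zero.1 (hcon v)).symm)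
  set p := π u with hp
  have hpp : π p = p := hπ u
  obtain ⟨w, hw⟩ : ∃ w, om p w ≠ 0 := by
    by_contra hcon
    push Not at hcon
    exact hu (om_nondeg _ hcon)
  set q := (om p w)⁻¹ • π w with hq
  have hqq : π q = q := by rw [hq, map_smul, hπ]
  have hpq : om p q = 1 := by
    rw [hq, om_smul_right, ← hs, hpp, inv_mul_cancel₀ hw]
  set p' := u' - π u' with hp'
  have hpp' : π p' = 0 := by rw [hp', map_sub, hπ, sub_self]
  obtain ⟨w', hw'⟩ : ∃ w, om p' w ≠ 0 := by
    by_contra hcon
    push Not at hcon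
    exact hu' (om_nondeg _ hcon)
  set q' := (om p' w')⁻¹ • (w' - π w') with hq'
  have hqq' : π q' = 0 := by rw [hq', map_smul, map_sub, hπ, sub_self, smul_zero]
  have hpq' : om p' q' = 1 := by
    rw [hq', om_smul_right, om_sub_right, ← hs, hpp', om_zero_left, sub_zero,
      inv_mul_cancel₀ hw']
  have z1 : ∀ a b : V 2, π a = a → π b = 0 → om a b = 0 := by
    intro a b ha hb
    rw [← ha, hs, hb, om_anti, om_zero_left, neg_zero]
  have z2 : ∀ a b : V 2, π a = a → π b = 0 → om b a = 0 := by
    intro a b ha hb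
    rw [om_anti, z1 a b ha hb, neg_zero]
  -- the linear map from coordinates
  set T : (Fin 4 → ℝ) →ₗ[ℝ] V 2 :=
    { toFun := fun c => c 0 • p + c 1 • q + c 2 • p' + c 3 • q'
      map_add' := fun c d => by
        simp only [Pi.add_apply]
        module
      map_smul' := fun r c => by
        simp only [Pi.smul_apply, smul_eq_mul, RingHom.id_apply]
        module } with hT
  have hTe : ∀ c, T c = c 0 • p + c 1 • q + c 2 • p' + c 3 • q' := fun c => rfl
  have t0 : ∀ c, om (T c) q = c 0 := by
    intro c
    rw [hTe]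
    simp only [om_add_left, om_smul_left]
    rw [hpq, om_self', z2 q p' hqq hpp', z2 q q' hqq hqq']
    ring
  have t1 : ∀ c, om p (T c) = c 1 := by
    intro c
    rw [hTe]
    simp only [om_add_right, om_smul_right]
    rw [hpq, om_self', z1 p p' hpp hpp', z1 p q' hpp hqq']
    ring
  have t2 : ∀ c, om (T c) q' = c 2 := by
    intro c
    rw [hTe]
    simp only [om_add_left, om_smul_left]
    rw [hpq', om_self', z1 p q' hpp hqq', z1 q q' hqq hqq']
    ring
  have t3 : ∀ c, om p' (T c) = c 3 := by
    intro c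
    rw [hTe]
    simp only [om_add_right, om_smul_right]
    rw [hpq', om_self', z2 p p' hpp hpp', z2 q p' hqq hpp']
    ring
  have hinj : Function.Injective T := by
    rw [injective_iff_map_eq_zero]
    intro c hc
    have e0 := t0 c
    have e1 := t1 c
    have e2 := t2 c
    have e3 := t3 c
    have z : ∀ a : V 2, om a 0 = 0 := fun a => by rw [om_anti, om_zero_left, neg_zero]
    rw [hc, om_zero_left] at e0 e2
    rw [hc, z] at e1 e3
    funext i
    fin_cases i
    · exact e0.symm
    · exact e1.symm
    · exact e2.symm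
    · exact e3.symm
  have hsurj : Function.Surjective T := by
    have hfr : Module.finrank ℝ (Fin 4 → ℝ) = Module.finrank ℝ (V 2) := by
      simp [V]
    exact (LinearMap.injective_iff_surjective_of_finrank_eq_finrank hfr).1 hinj
  refine ⟨p, q, p', q', hpq, hpq', fun v => ?_, fun v => ?_⟩
  · obtain ⟨c, rfl⟩ := hsurj v
    unfold pr
    have hm : ∀ r : ℝ, ∀ z : V 2, π (r • z) = r • π z := fun r z => map_smul π r z
    rw [t0, t1, hTe, map_add, map_add, map_add, hm (c 0) p, hm (c 1) q, hm (c 2) p', hm (c 3) q',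
      hpp, hqq, hpp', hqq']
    simp
  · obtain ⟨c, rfl⟩ := hsurj v
    unfold pr
    have hm : ∀ r : ℝ, ∀ z : V 2, π (r • z) = r • π z := fun r z => map_smul π r z
    rw [t2, t3, hTe, map_add, map_add, map_add, hm (c 0) p, hm (c 1) q, hm (c 2) p', hm (c 3) q',
      hpp, hqq, hpp', hqq']
    simp only [smul_zero, add_zero]
    abel

/-- **The block criterion.** A symplectomorphism of `T⁴`, acting trivially on homology, is
symplectically isotopic to the identity if the compressions of its derivatives to two complementary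
orthogonal planes have no nonpositive real eigenvalue. -/
theorem isotopic_of_blocks {ψ : V 2 → V 2} (hψ : IsTorusSymp 1 ψ) (π : V 2 →ₗ[ℝ] V 2)
    (hπ : ∀ v, π (π v) = π v) (hs : ∀ u v, om (π u) v = om u (π v)) (h0 : π ≠ 0)
    (h1 : π ≠ LinearMap.id)
    (ha : ∀ x v : V 2, π v = v → v ≠ 0 → ∀ c : ℝ, 0 ≤ c → π (fderiv ℝ ψ x v) ≠ -(c • v))
    (hb : ∀ x v : V 2, π v = 0 → v ≠ 0 → ∀ c : ℝ, 0 ≤ c →
      fderiv ℝ ψ x v - π (fderiv ℝ ψ x v) ≠ -(c • v)) :
    SymplecticallyIsotopic 1 id ψ := by
  obtain ⟨p, q, p', q', hpq, hpq', hpr, hpr'⟩ := exists_planes π hπ hs h0 h1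
  set a : ℝ → ℝ := fun t => Real.smoothTransition (2 * t) with hadef
  set b : ℝ → ℝ := fun t => Real.smoothTransition (2 * t - 1) with hbdef
  have has : ContDiff ℝ ∞ a := Real.smoothTransition.contDiff.comp (contDiff_const.mul contDiff_id)
  have hbs : ContDiff ℝ ∞ b :=
    Real.smoothTransition.contDiff.comp ((contDiff_const.mul contDiff_id).sub contDiff_const)
  set Pc : V 2 →L[ℝ] V 2 := LinearMap.toContinuousLinearMap π with hPc
  have hPce : ∀ v, Pc v = π v := fun v => rfl
  set F : ℝ × V 2 → V 2 := fun z => z.2 + (a z.1 • Pc (ψ z.2 - z.2) +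
    b z.1 • ((ψ z.2 - z.2) - Pc (ψ z.2 - z.2))) with hF
  have hps : ContDiff ℝ ∞ (fun z : ℝ × V 2 => ψ z.2 - z.2) :=
    (hψ.smooth.comp contDiff_snd).sub contDiff_snd
  have hFs : ContDiff ℝ ∞ F :=
    contDiff_snd.add ((smul_smooth' (has.comp contDiff_fst) (Pc.contDiff.comp hps)).add
      (smul_smooth' (hbs.comp contDiff_fst) (hps.sub (Pc.contDiff.comp hps))))
  have a0 : a 0 = 0 := by simp [hadef, Real.smoothTransition.zero]
  have b0 : b 0 = 0 := by
    simp only [hbdef]
    exact Real.smoothTransition.zero_of_nonpos (by norm_num)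
  have a1 : a 1 = 1 := by
    simp only [hadef]
    exact Real.smoothTransition.one_of_one_le (by norm_num)
  have b1 : b 1 = 1 := by
    simp only [hbdef]
    exact Real.smoothTransition.one_of_one_le (by norm_num)
  have e0 : (fun x => F (0, x)) = id := by
    funext x
    simp [hF, a0, b0]
  have e1 : (fun x => F (1, x)) = ψ := by
    funext x
    simp [hF, a1, b1]
  have he : ∀ t ∈ Icc (0 : ℝ) 1, ∀ x (k : Fin 2 ⊕ Fin 2 → ℤ),
      F (t, x + lat k) = F (t, x) + lat k := by
    intro t _ x k
    simp only [hF]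
    rw [hψ.equivariant, Matrix.one_mulVec, add_sub_add_right_eq_sub]
    abel
  have hnr : ∀ t ∈ Icc (0 : ℝ) 1, ∀ x, NR (fderiv ℝ (fun y => F (t, y)) x) := by
    intro t _ x
    set X : V 2 →L[ℝ] V 2 := fderiv ℝ ψ x with hX
    have hXs : ∀ u v, om (X u) (X v) = om u v := hψ.symplectic x
    have hd : HasFDerivAt (fun y => F (t, y)) (ContinuousLinearMap.id ℝ (V 2) +
        (a t • Pc.comp (X - ContinuousLinearMap.id ℝ (V 2)) +
        b t • ((X - ContinuousLinearMap.id ℝ (V 2)) -
          Pc.comp (X - ContinuousLinearMap.id ℝ (V 2))))) x := by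
      have hd1 : HasFDerivAt (fun y => ψ y - y) (X - ContinuousLinearMap.id ℝ (V 2)) x :=
        (hψ.diff x).hasFDerivAt.sub (hasFDerivAt_id x)
      have hd2 : HasFDerivAt (fun y => Pc (ψ y - y))
          (Pc.comp (X - ContinuousLinearMap.id ℝ (V 2))) x := Pc.hasFDerivAt.comp x hd1
      exact (hasFDerivAt_id x).add ((hd2.const_smul (a t)).add ((hd1.sub hd2).const_smul (b t)))
    rw [hd.fderiv]
    rcases le_total t (1 / 2) with ht | ht
    · have hbt : b t = 0 := by
        simp only [hbdef]
        exact Real.smoothTransition.zero_of_nonpos (by linarith)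
      have hχ := chi_of_block (X := X) hpq (fun v hv hv0 c hc => by
        rw [← hpr]
        exact ha x v (by rw [hpr]; exact hv) hv0 c hc)
      have h2 := plane_NR hXs hpq hχ
        (t := a t) ⟨Real.smoothTransition.nonneg _, Real.smoothTransition.le_one _⟩
      have e2 : (fun v => v + a t • pr p q (X v - v)) = fun v =>
          (ContinuousLinearMap.id ℝ (V 2) +
        (a t • Pc.comp (X - ContinuousLinearMap.id ℝ (V 2)) +
        b t • ((X - ContinuousLinearMap.id ℝ (V 2)) -
          Pc.comp (X - ContinuousLinearMap.id ℝ (V 2))))) v := by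
        funext v
        rw [hbt, ← hpr]
        simp [hPce]
      rw [e2] at h2
      exact h2
    · have hat : a t = 1 := by
        simp only [hadef]
        exact Real.smoothTransition.one_of_one_le (by linarith)
      -- the inverse of the derivative
      obtain ⟨e, he⟩ := exists_lequiv hXs
      set Y : V 2 →L[ℝ] V 2 := LinearMap.toContinuousLinearMap (e.symm : V 2 →ₗ[ℝ] V 2) with hY
      have hYX : ∀ v, Y (X v) = v := by
        intro v
        show e.symm (X v) = v
        rw [← he]
        simp
      have hXY : ∀ v, X (Y v) = v := by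
        intro v
        show X (e.symm v) = v
        rw [← he]
        simp
      have hYs : ∀ u v, om (Y u) (Y v) = om u v := by
        intro u v
        rw [← hXs, hXY, hXY]
      have hadj : ∀ u v, om (Y u) v = om u (X v) := by
        intro u v
        rw [← hXs, hXY]
      have hadj' : ∀ u v, om u (Y v) = om (X u) v := by
        intro u v
        rw [← hXs, hXY]
      have hχ := chi_of_block (X := X) hpq' (fun v hv hv0 c hc => by
        rw [← hpr']
        have h3 : π v = 0 := by
          have h4 := hpr' v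
          rw [hv] at h4
          exact sub_eq_self.1 h4
        exact hb x v h3 hv0 c hc)
      have hχ' : ∀ c : ℝ, 0 ≤ c → 0 < c ^ 2 + c * (om (Y p') q' + om p' (Y q')) +
          (om (Y p') q' * om p' (Y q') - om (Y q') q' * om p' (Y p')) := by
        intro c hc
        have h3 := hχ c hc
        rw [hadj, hadj', hadj, hadj', om_anti q' (X q'), om_anti (X p') p']
        linarith
      have hmem : b t ∈ Icc (0 : ℝ) 1 :=
        ⟨Real.smoothTransition.nonneg _, Real.smoothTransition.le_one _⟩
      have h2 := NR_comp hXs (plane_NR hYs hpq' hχ' (t := 1 - b t)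
        ⟨by linarith [hmem.2], by linarith [hmem.1]⟩)
      have e2 : (fun v => X v + (1 - b t) • pr p' q' (Y (X v) - X v)) = fun v =>
          (ContinuousLinearMap.id ℝ (V 2) +
        (a t • Pc.comp (X - ContinuousLinearMap.id ℝ (V 2)) +
        b t • ((X - ContinuousLinearMap.id ℝ (V 2)) -
          Pc.comp (X - ContinuousLinearMap.id ℝ (V 2))))) v := by
        funext v
        rw [hat, ← hpr', hYX]
        simp only [add_apply, smul_apply,
          sub_apply, ContinuousLinearMap.comp_apply, hPce,
          ContinuousLinearMap.id_apply, map_sub]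
        module
      rw [e2] at h2
      exact h2
  obtain ⟨G, hG0, -, hG1⟩ := exists_path (F := F) hFs he hnr (by rw [e0]; exact isTorusSymp_id)
  rw [e0] at hG0
  rw [e1] at hG1
  exact hG0.trans (hG1 hψ).symm

end Pool.Agent.Run7.h233
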