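import Pool.Agent.Run7.h233.Diffeo

/-!
# Chains of principal minors
-/

set_option autoImplicit false
set_option linter.unusedSectionVars false

open Set Filter Topology MeasureTheory
open scoped ContDiff

noncomputable section

namespace Pool.Agent.Run7.h233

open Pool.Agent.Helper597_torsymp Pool.Agent.Helper597_fou Pool.Agent.Helper597_fou.PS

variable {n : ℕ}

theorem ev_smul (t c : ℝ) (f : PS (n + n)) (v : V n) : ev t (c • f) v = c * ev t f v := rfl

theorem ev_contDiff (f : PS (n + n)) : ContDiff ℝ ∞ fun p : ℝ × V n => ev p.1 f p.2 :=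
  f.smooth.comp jn_contDiff

/-- the straight line between two maps which move two coordinates -/
theorem line_smooth {α β : Fin n ⊕ Fin n} (A B A' B' : PS (n + n)) (t : ℝ) :
    ContDiff ℝ ∞ fun p : ℝ × V n =>
      fam (two α β ((1 - p.1) • A + p.1 • A') ((1 - p.1) • B + p.1 • B')) t p.2 := by
  rw [contDiff_pi]
  intro γ
  have h1 : ContDiff ℝ ∞ fun p : ℝ × V n => p.2 γ := (contDiff_apply ℝ ℝ γ).comp contDiff_snd
  have h2 : ∀ f : PS (n + n), ContDiff ℝ ∞ fun p : ℝ × V n => ev t f p.2 := fun f =>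
    (ev_contDiff f).comp (contDiff_const.prodMk contDiff_snd)
  by_cases hα : γ = α
  · subst hα
    have e : (fun p : ℝ × V n => fam (two γ β ((1 - p.1) • A + p.1 • A')
        ((1 - p.1) • B + p.1 • B')) t p.2 γ) = fun p : ℝ × V n => p.2 γ +
          ((1 - p.1) * ev t A p.2 + p.1 * ev t A' p.2) := by
      funext p
      unfold fam
      rw [two_left]
      rfl
    rw [e]
    exact h1.add (((contDiff_const.sub contDiff_fst).mul (h2 A)).add (contDiff_fst.mul (h2 A')))
  · by_cases hβ : γ = β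
    · subst hβ
      have e : (fun p : ℝ × V n => fam (two α γ ((1 - p.1) • A + p.1 • A')
          ((1 - p.1) • B + p.1 • B')) t p.2 γ) = fun p : ℝ × V n => p.2 γ +
            ((1 - p.1) * ev t B p.2 + p.1 * ev t B' p.2) := by
        funext p
        unfold fam
        rw [two_right (Ne.symm hα)]
        rfl
      rw [e]
      exact h1.add (((contDiff_const.sub contDiff_fst).mul (h2 B)).add (contDiff_fst.mul (h2 B')))
    · have e : (fun p : ℝ × V n => fam (two α β ((1 - p.1) • A + p.1 • A')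
          ((1 - p.1) • B + p.1 • B')) t p.2 γ) = fun p : ℝ × V n => p.2 γ := by
        funext p
        unfold fam
        rw [two_other hα hβ, ev_zero, add_zero]
      rw [e]
      exact h1

/-- the straight line between two maps with the same derivatives in the plane -/
theorem isotopic_line {α β : Fin n ⊕ Fin n} (h : α ≠ β) {A B A' B' : PS (n + n)} {t : ℝ}
    (h1 : dd (ix α) A = dd (ix α) A') (h2 : dd (ix β) A = dd (ix β) A')
    (h3 : dd (ix α) B = dd (ix α) B') (h4 : dd (ix β) B = dd (ix β) B')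
    (hJ : ∀ x, ev t (J (ix α) (ix β) A' B') x ≠ 0)
    (hinj : Function.Injective (fam (two α β A B) t)) :
    SmoothlyIsotopic (fam (two α β A B) t) (fam (two α β A' B') t) := by
  have hd : ∀ (s : ℝ) (i : Fin (n + n + 1)) (C C' : PS (n + n)), dd i C = dd i C' →
      dd i ((1 - s) • C + s • C') = dd i C' := by
    intro s i C C' hC
    rw [dd_add, dd_smul, dd_smul, hC]
    module
  set G : ℝ → V n → V n := fun s => fam (two α β ((1 - s) • A + s • A') ((1 - s) • B + s • B')) t
    with hG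
  have e0 : G 0 = fam (two α β A B) t := by
    simp only [hG, sub_zero, one_smul, zero_smul, add_zero]
  have e1 : G 1 = fam (two α β A' B') t := by
    simp only [hG, sub_self, one_smul, zero_smul, zero_add]
  have key := isotopic_of_family (G := G) (line_smooth A B A' B' t)
    (fun s x k => fam_lat _ _ _ _) (fun s x v hv => by
      refine two_inj h ?_ v hv
      have e : J (ix α) (ix β) ((1 - s) • A + s • A') ((1 - s) • B + s • B') =
          J (ix α) (ix β) A' B' :=
        J_congr (hd s _ _ _ h1) (hd s _ _ _ h2) (hd s _ _ _ h3) (hd s _ _ _ h4)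
      rw [e]
      exact hJ x) (a := 0) (by rw [e0]; exact hinj) 1
  rwa [e0, e1] at key

/-- **Maps which move two coordinates.** -/
theorem isotopic_two {α β : Fin n ⊕ Fin n} (h : α ≠ β) {F : V n → V n} (hs : ContDiff ℝ ∞ F)
    (he : ∀ (x : V n) (k : Fin n ⊕ Fin n → ℤ), F (x + lat k) = F x + lat k)
    (hi : ∀ x v, fderiv ℝ F x v = 0 → v = 0)
    (hF : ∀ γ, γ ≠ α → γ ≠ β → ∀ x, F x γ = x γ) : SmoothlyIsotopic id F := by
  set U := disp F hs he with hU
  have hUt : U = two α β (U α) (U β) := by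
    funext γ
    by_cases hα : γ = α
    · subst hα
      rw [two_left]
    · by_cases hβ : γ = β
      · subst hβ
        rw [two_right (Ne.symm hα)]
      · rw [two_other hα hβ]
        refine ext_ev fun t v => ?_
        rw [hU, ev_disp, hF γ hα hβ, sub_self]
        rfl
  have hFt : ∀ t, fam (two α β (U α) (U β)) t = F := by
    intro t
    rw [← hUt, hU, fam_disp]
  have hd1 : dd 0 (U α) = 0 := dd_zero_disp hs he α
  have hd2 : dd 0 (U β) = 0 := dd_zero_disp hs he β
  have hJev : ∀ t x, ev t (J (ix α) (ix β) (U α) (U β)) x ≠ 0 := by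
    intro t x
    refine two_J_ne h fun v hv => ?_
    rw [hFt] at hv
    exact hi x v hv
  have hJne : ∀ y, (J (ix α) (ix β) (U α) (U β)).1 y ≠ 0 := by
    intro y
    rw [← jn_pr y]
    exact hJev _ _
  have hJpos := J_pos (ix_ne h) hJne
  obtain ⟨Φ₁, Φ₂, hJΦ, ⟨a1, a2, a3, a4⟩, b1, b2, b3, b4⟩ :=
    deformation_pos (ix_ne_zero α) (ix_ne_zero β) hd1 hd2 hJpos
  -- the first piece
  have hid : fam (two α β (0 : PS (n + n)) 0) 0 = id := by
    funext x γ
    unfold fam two
    simp [ev_zero]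
  have hsl : ∀ c : ℝ, ∀ A B : PS (n + n), fam (two α β (sl 0 c A) (sl 0 c B)) 0 =
      fam (two α β A B) c := by
    intro c A B
    funext x γ
    unfold fam
    by_cases hα : γ = α
    · subst hα
      rw [two_left, two_left, ev_sl]
    · by_cases hβ : γ = β
      · subst hβ
        rw [two_right (Ne.symm hα), two_right (Ne.symm hα), ev_sl]
      · rw [two_other hα hβ, two_other hα hβ, ev_zero, ev_zero]
  have p1 : SmoothlyIsotopic id (fam (two α β Φ₁ Φ₂) 0) := by
    have key := isotopic_line h (A := 0) (B := 0) (A' := sl 0 0 Φ₁) (B' := sl 0 0 Φ₂) (t := 0)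
      (by rw [a1, dd_zero]) (by rw [a2, dd_zero]) (by rw [a3, dd_zero]) (by rw [a4, dd_zero])
      (fun x => by
        rw [ev_J, a1, a2, a3, a4, ev_zero]
        norm_num) (by rw [hid]; exact Function.injective_id)
    rwa [hid, hsl] at key
  have p2 : SmoothlyIsotopic (fam (two α β Φ₁ Φ₂) 0) (fam (two α β Φ₁ Φ₂) (1 / 2)) := by
    obtain ⟨G, -, -, hG1, hGs⟩ := p1
    have hinj : Function.Injective (fam (two α β Φ₁ Φ₂) 0) := by
      rw [← hG1]
      exact (hGs 1 ⟨zero_le_one, le_rfl⟩).injective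
    exact isotopic_of_family (G := fam (two α β Φ₁ Φ₂)) (fam_contDiff _)
      (fun t x k => fam_lat _ _ _ _) (fun t x v hv => two_inj h (hJΦ _).ne' v hv) hinj (1 / 2)
  have p3 : SmoothlyIsotopic (fam (two α β Φ₁ Φ₂) (1 / 2)) F := by
    obtain ⟨G, -, -, hG1, hGs⟩ := p2
    have hinj : Function.Injective (fam (two α β Φ₁ Φ₂) (1 / 2)) := by
      rw [← hG1]
      exact (hGs 1 ⟨zero_le_one, le_rfl⟩).injective
    have key := isotopic_line h (A := sl 0 (1 / 2) Φ₁) (B := sl 0 (1 / 2) Φ₂) (A' := U α)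
      (B' := U β) (t := 0) b1 b2 b3 b4 (hJev 0) (by rw [hsl]; exact hinj)
    rwa [hsl, hFt] at key
  exact (p1.trans p2).trans p3

/-- the map with the components `ψ_i`, `i ∈ I`, and `x_i`, `i ∉ I` -/
def part (ψ : V n → V n) (I : Finset (Fin n ⊕ Fin n)) (x : V n) : V n :=
  fun γ => if γ ∈ I then ψ x γ else x γ

theorem part_smooth {ψ : V n → V n} (hψ : ContDiff ℝ ∞ ψ) (I : Finset (Fin n ⊕ Fin n)) :
    ContDiff ℝ ∞ (part ψ I) := by
  rw [contDiff_pi]
  intro γ
  unfold part
  by_cases h : γ ∈ I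
  · simp only [h, if_true]
    exact (contDiff_apply ℝ ℝ γ).comp hψ
  · simp only [h, if_false]
    exact contDiff_apply ℝ ℝ γ

theorem part_lat {ψ : V n → V n}
    (he : ∀ (x : V n) (k : Fin n ⊕ Fin n → ℤ), ψ (x + lat k) = ψ x + lat k)
    (I : Finset (Fin n ⊕ Fin n)) (x : V n) (k : Fin n ⊕ Fin n → ℤ) :
    part ψ I (x + lat k) = part ψ I x + lat k := by
  funext γ
  unfold part
  by_cases h : γ ∈ I
  · simp only [h, if_true, Pi.add_apply, he]
  · simp only [h, if_false, Pi.add_apply]

theorem part_fderiv {ψ : V n → V n} (hψ : ContDiff ℝ ∞ ψ) (I : Finset (Fin n ⊕ Fin n))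
    (x v : V n) (γ : Fin n ⊕ Fin n) :
    fderiv ℝ (part ψ I) x v γ = if γ ∈ I then fderiv ℝ ψ x v γ else v γ := by
  have h1 : HasFDerivAt (part ψ I) (fderiv ℝ (part ψ I) x) x :=
    ((part_smooth hψ I).differentiable (by simp) x).hasFDerivAt
  have h2 : HasFDerivAt (fun y => part ψ I y γ)
      ((ContinuousLinearMap.proj (R := ℝ) (φ := fun _ : Fin n ⊕ Fin n => ℝ) γ).comp
        (fderiv ℝ (part ψ I) x)) x :=
    (ContinuousLinearMap.proj (R := ℝ) (φ := fun _ : Fin n ⊕ Fin n => ℝ) γ).hasFDerivAt.comp x h1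
  have h3 : fderiv ℝ (part ψ I) x v γ = ((ContinuousLinearMap.proj (R := ℝ)
      (φ := fun _ : Fin n ⊕ Fin n => ℝ) γ).comp (fderiv ℝ (part ψ I) x)) v := rfl
  rw [h3]
  by_cases h : γ ∈ I
  · have e : (fun y => part ψ I y γ) = fun y => ψ y γ := by
      funext y
      simp [part, h]
    rw [e] at h2
    have h4 : HasFDerivAt (fun y => ψ y γ)
        ((ContinuousLinearMap.proj (R := ℝ) (φ := fun _ : Fin n ⊕ Fin n => ℝ) γ).comp
          (fderiv ℝ ψ x)) x :=
      (ContinuousLinearMap.proj (R := ℝ) (φ := fun _ : Fin n ⊕ Fin n => ℝ) γ).hasFDerivAt.comp x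
        (hψ.differentiable (by simp) x).hasFDerivAt
    rw [h2.unique h4, if_pos h]
    rfl
  · have e : (fun y => part ψ I y γ) = fun y : V n => y γ := by
      funext y
      simp [part, h]
    rw [e] at h2
    have h4 : HasFDerivAt (fun y : V n => y γ)
        (ContinuousLinearMap.proj (R := ℝ) (φ := fun _ : Fin n ⊕ Fin n => ℝ) γ) x :=
      (ContinuousLinearMap.proj (R := ℝ) (φ := fun _ : Fin n ⊕ Fin n => ℝ) γ).hasFDerivAt
    rw [h2.unique h4, if_neg h]
    rfl

theorem part_inj {ψ : V n → V n} (hψ : ContDiff ℝ ∞ ψ) {I : Finset (Fin n ⊕ Fin n)}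
    (h : PrincipalInv ψ I) (x v : V n) (hv : fderiv ℝ (part ψ I) x v = 0) : v = 0 := by
  refine h x v (fun γ hγ => ?_) fun γ hγ => ?_
  · have := congrFun hv γ
    rwa [part_fderiv hψ, if_neg hγ] at this
  · have := congrFun hv γ
    rwa [part_fderiv hψ, if_pos hγ] at this

/-- one step of the chain -/
theorem step {F F' : V n → V n} {α β : Fin n ⊕ Fin n} (h : α ≠ β) (hF : IsTorusDiffeo F)
    (hs : ContDiff ℝ ∞ F')
    (he : ∀ (x : V n) (k : Fin n ⊕ Fin n → ℤ), F' (x + lat k) = F' x + lat k)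
    (hi : ∀ x v, fderiv ℝ F' x v = 0 → v = 0)
    (hFF : ∀ γ, γ ≠ α → γ ≠ β → ∀ x, F' x γ = F x γ) : SmoothlyIsotopic F F' := by
  obtain ⟨H, hH, hl, hr⟩ := hF.inverse
  have hHlat : ∀ (x : V n) (k : Fin n ⊕ Fin n → ℤ), H (x + lat k) = H x + lat k := by
    intro x k
    have h1 : x + lat k = F (H x + lat k) := by rw [hF.equivariant, hr]
    rw [h1, hl]
  have hHinj : ∀ x v, fderiv ℝ H x v = 0 → v = 0 := by
    intro x v hv
    have h1 : HasFDerivAt (fun x => F (H x)) ((fderiv ℝ F (H x)).comp (fderiv ℝ H x)) x :=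
      (hF.diff (H x)).hasFDerivAt.comp x ((hH.differentiable (by simp)) x).hasFDerivAt
    have h2 : (fun x => F (H x)) = id := funext hr
    rw [h2] at h1
    have h3 := congrArg (fun L : V n →L[ℝ] V n => L v) (h1.unique (hasFDerivAt_id x))
    simp only [ContinuousLinearMap.comp_apply, hv, map_zero, ContinuousLinearMap.id_apply] at h3
    exact h3.symm
  have key := isotopic_two (F := fun x => F' (H x)) h (hs.comp hH) (fun x k => by
      rw [hHlat, he]) (fun x v hv => by
      have h1 : HasFDerivAt (fun x => F' (H x)) ((fderiv ℝ F' (H x)).comp (fderiv ℝ H x)) x :=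
        ((hs.differentiable (by simp)) (H x)).hasFDerivAt.comp x
          ((hH.differentiable (by simp)) x).hasFDerivAt
      rw [h1.fderiv] at hv
      exact hHinj x v (hi _ _ hv)) (fun γ h1 h2 x => by
      rw [hFF γ h1 h2, hr])
  have h5 := key.comp_right hF
  have e1 : (fun x => (id : V n → V n) (F x)) = F := rfl
  have e2 : (fun x => F' (H (F x))) = F' := funext fun x => by rw [hl]
  simp only [e2] at h5
  exact h5

/-- **The chain theorem.** -/
theorem isotopic_of_chain (hn : 0 < n) {ψ : V n → V n} (hs : ContDiff ℝ ∞ ψ)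
    (he : ∀ (x : V n) (k : Fin n ⊕ Fin n → ℤ), ψ (x + lat k) = ψ x + lat k)
    (r : ℕ) (I : ℕ → Finset (Fin n ⊕ Fin n)) (h0 : I 0 = ∅) (hr : I r = Finset.univ)
    (hI : ∀ j < r, I j ⊆ I (j + 1) ∧ (I (j + 1) \ I j).card ≤ 2)
    (hinv : ∀ j ≤ r, PrincipalInv ψ (I j)) : SmoothlyIsotopic id ψ := by
  have key : ∀ j ≤ r, SmoothlyIsotopic id (part ψ (I j)) := by
    intro j
    induction j with
    | zero =>
      intro _
      have e : part ψ (I 0) = id := by
        funext x γ
        rw [h0]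
        simp [part]
      rw [e]
      exact ⟨fun _ => id, contDiff_snd, rfl, rfl, fun _ _ => isTorusDiffeo_id⟩
    | succ j ih =>
      intro hj
      have h1 := ih (by omega)
      obtain ⟨hsub, hcard⟩ := hI j (by omega)
      -- two indices which cover the difference
      obtain ⟨α, β, hαβ, hcov⟩ : ∃ α β : Fin n ⊕ Fin n, α ≠ β ∧
          ∀ γ, γ ∈ I (j + 1) \ I j → γ = α ∨ γ = β := by
        have hcard2 : 2 ≤ (Finset.univ : Finset (Fin n ⊕ Fin n)).card := by
          rw [Finset.card_univ, Fintype.card_sum, Fintype.card_fin]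
          omega
        obtain ⟨T, hT1, -, hT2⟩ := Finset.exists_subsuperset_card_eq
          (Finset.subset_univ (I (j + 1) \ I j)) hcard hcard2
        obtain ⟨α, β, hαβ, rfl⟩ := Finset.card_eq_two.1 hT2
        refine ⟨α, β, hαβ, fun γ hγ => ?_⟩
        have := hT1 hγ
        simpa using this
      have hF : IsTorusDiffeo (part ψ (I j)) := by
        obtain ⟨G, -, -, hG1, hGs⟩ := h1
        rw [← hG1]
        exact hGs 1 ⟨zero_le_one, le_rfl⟩
      refine h1.trans (step hαβ hF (part_smooth hs _) (part_lat he _)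
        (part_inj hs (hinv (j + 1) hj)) fun γ hα hβ x => ?_)
      have h2 : γ ∈ I (j + 1) ↔ γ ∈ I j := by
        refine ⟨fun h => ?_, fun h => hsub h⟩
        by_contra hγ
        rcases hcov γ (Finset.mem_sdiff.2 ⟨h, hγ⟩) with h' | h'
        · exact hα h'
        · exact hβ h'
      unfold part
      simp only [h2]
  have h1 := key r le_rfl
  have e : part ψ (I r) = ψ := by
    funext x γ
    rw [hr]
    simp [part]
  rwa [e] at h1

end Pool.Agent.Run7.h233
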