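import Pool.Agent.Run7.h233.Chain
import Pool.Agent.Helper597_torsymp.Lin

/-!
# Chains of principal minors in an integral basis
-/

set_option autoImplicit false
set_option linter.unusedSectionVars false

open Set Filter Topology MeasureTheory
open scoped ContDiff

noncomputable section

namespace Pool.Agent.Run7.h233

open Pool.Agent.Helper597_torsymp

variable {n : ℕ} {A B : Matrix (Fin n ⊕ Fin n) (Fin n ⊕ Fin n) ℤ}

theorem conj_lat {ψ : V n → V n} (hAB : A * B = 1)
    (he : ∀ (x : V n) (k : Fin n ⊕ Fin n → ℤ), ψ (x + lat k) = ψ x + lat k) (x : V n)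
    (k : Fin n ⊕ Fin n → ℤ) : lin A (ψ (lin B (x + lat k))) = lin A (ψ (lin B x)) + lat k := by
  rw [map_add, lin_lat, he, map_add, lin_lat, Matrix.mulVec_mulVec, hAB, Matrix.one_mulVec]

theorem IsTorusDiffeo.conj {F : V n → V n} (hF : IsTorusDiffeo F) (hAB : A * B = 1)
    (hBA : B * A = 1) : IsTorusDiffeo (fun x => lin A (F (lin B x))) := by
  obtain ⟨H, hH, hl, hr⟩ := hF.inverse
  refine ⟨(lin A).contDiff.comp (hF.smooth.comp (lin B).contDiff),
    ⟨fun x => lin A (H (lin B x)), (lin A).contDiff.comp (hH.comp (lin B).contDiff),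
      fun x => ?_, fun x => ?_⟩, fun x k => conj_lat hAB hF.equivariant x k⟩
  · simp only
    rw [← lin_mul, hBA, lin_one, hl, ← lin_mul, hAB, lin_one]
  · simp only
    rw [← lin_mul, hBA, lin_one, hr, ← lin_mul, hAB, lin_one]

theorem SmoothlyIsotopic.conj {F₀ F₁ : V n → V n} (h : SmoothlyIsotopic F₀ F₁) (hAB : A * B = 1)
    (hBA : B * A = 1) :
    SmoothlyIsotopic (fun x => lin A (F₀ (lin B x))) (fun x => lin A (F₁ (lin B x))) := by
  obtain ⟨G, hG, h0, h1, hs⟩ := h
  refine ⟨fun t x => lin A (G t (lin B x)), ?_, by simp only [h0], by simp only [h1],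
    fun t ht => (hs t ht).conj hAB hBA⟩
  have : ContDiff ℝ ∞ fun p : ℝ × V n => ((p.1, lin B p.2) : ℝ × V n) :=
    contDiff_fst.prodMk ((lin B).contDiff.comp contDiff_snd)
  exact (lin A).contDiff.comp (hG.comp this)

/-- **The chain theorem, in an integral basis.** -/
theorem isotopic_of_chain_basis (hn : 0 < n) {ψ : V n → V n} (hs : ContDiff ℝ ∞ ψ)
    (he : ∀ (x : V n) (k : Fin n ⊕ Fin n → ℤ), ψ (x + lat k) = ψ x + lat k)
    (hAB : A * B = 1) (hBA : B * A = 1)
    (r : ℕ) (I : ℕ → Finset (Fin n ⊕ Fin n)) (h0 : I 0 = ∅) (hr : I r = Finset.univ)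
    (hI : ∀ j < r, I j ⊆ I (j + 1) ∧ (I (j + 1) \ I j).card ≤ 2)
    (hinv : ∀ j ≤ r, PrincipalInv (fun x => imul A (ψ (imul B x))) (I j)) :
    SmoothlyIsotopic id ψ := by
  have h := isotopic_of_chain hn (ψ := fun x => lin A (ψ (lin B x)))
    ((lin A).contDiff.comp (hs.comp (lin B).contDiff)) (fun x k => conj_lat hAB he x k) r I h0 hr
    hI hinv
  have h2 := h.conj hBA hAB
  have e1 : (fun x => lin B ((id : V n → V n) (lin A x))) = id := by
    funext x
    simp only [id]
    rw [← lin_mul, hBA, lin_one]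
  have e2 : (fun x => lin B (lin A (ψ (lin B (lin A x))))) = ψ := by
    funext x
    rw [← lin_mul, ← lin_mul, hBA, lin_one, lin_one]
  simp only [e1, e2] at h2
  exact h2

end Pool.Agent.Run7.h233
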