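import Pool.Agent.W5h49.EC.Calc

/-!
# The conservation law of Moser's argument, for a primitive corrected by an exact form
-/

set_option autoImplicit false

open scoped ContDiff Topology

namespace Pool.Agent.Run7.h233

open Pool.Agent.W5h49.EC

variable {V : Type*} [NormedAddCommGroup V] [NormedSpace ℝ V] (W : V →L[ℝ] V →L[ℝ] ℝ)

/-- **The conservation law of Moser's argument**, with an exact correction `d g` of the
primitive. -/
theorem conserve2 (hW : ∀ u v, W u v = - W v u) (σ : ℝ → ℝ) (hσ : ContDiff ℝ ∞ σ)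
    (Φ f : ℝ × V → V) (hΦ : ContDiff ℝ ∞ Φ) (hf : ContDiff ℝ ∞ f)
    (g : ℝ × V → ℝ) (hg : ContDiff ℝ ∞ g)
    (hM : ∀ (p : ℝ × V) (w : V), (1 - σ p.1) * W (dd Φ (ee V) p) (dd Φ (iv w) p)
      + σ p.1 * W (dd f (ee V) p) (dd f (iv w) p)
      + deriv σ p.1 * (1 / 2 * (W (f p) (dd f (iv w) p) - W (Φ p) (dd Φ (iv w) p))
        - dd g (iv w) p) = 0)
    (x v w : V) (s : ℝ) :
    (1 - σ s) * W (dd Φ (iv v) (s, x)) (dd Φ (iv w) (s, x))
      + σ s * W (dd f (iv v) (s, x)) (dd f (iv w) (s, x)) =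
    (1 - σ 0) * W (dd Φ (iv v) (0, x)) (dd Φ (iv w) (0, x))
      + σ 0 * W (dd f (iv v) (0, x)) (dd f (iv w) (0, x)) := by
  have hσ' : ContDiff ℝ ∞ (deriv σ) := (contDiff_infty_iff_deriv.1 hσ).2
  have hS : ContDiff ℝ ∞ (fun q : ℝ × V => σ q.1) := hσ.comp contDiff_fst
  have hS1 : ContDiff ℝ ∞ (fun q : ℝ × V => 1 - σ q.1) := contDiff_const.sub hS
  have hS' : ContDiff ℝ ∞ (fun q : ℝ × V => deriv σ q.1) := hσ'.comp contDiff_fst
  have df : ∀ {g : ℝ × V → ℝ},
      ContDiff ℝ ∞ g → ∀ p, DifferentiableAt ℝ g p := fun hg p => (hg.differentiable (by simp)) p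
  have dfV : ∀ {g : ℝ × V → V},
      ContDiff ℝ ∞ g → ∀ p, DifferentiableAt ℝ g p := fun hg p => (hg.differentiable (by simp)) p
  have hS1d : ∀ p b, fderiv ℝ (fun q : ℝ × V => 1 - σ q.1) p b = - (b.1 * deriv σ p.1) := by
    intro p b
    rw [fd_sub (df contDiff_const p) (df hS p), fst_fderiv hσ]
    simp
  -- the derivative of the Moser equation
  have key : ∀ (p : ℝ × V) (v w : V),
      (1 - σ p.1) * (fderiv ℝ (fun q => W (dd Φ (ee V) q) (dd Φ (iv w) q)) p (iv v))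
      + σ p.1 * (fderiv ℝ (fun q => W (dd f (ee V) q) (dd f (iv w) q)) p (iv v))
      + deriv σ p.1 * (1 / 2 * (fderiv ℝ (fun q => W (f q) (dd f (iv w) q)) p (iv v)
        - fderiv ℝ (fun q => W (Φ q) (dd Φ (iv w) q)) p (iv v))
        - fderiv ℝ (dd g (iv w)) p (iv v)) = 0 := by
    intro p v w
    have a1 : ContDiff ℝ ∞ (fun q => W (dd Φ (ee V) q) (dd Φ (iv w) q)) :=
      smooth_pair W (dd_smooth hΦ _) (dd_smooth hΦ _)
    have a2 : ContDiff ℝ ∞ (fun q => W (dd f (ee V) q) (dd f (iv w) q)) :=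
      smooth_pair W (dd_smooth hf _) (dd_smooth hf _)
    have a3 : ContDiff ℝ ∞ (fun q => W (f q) (dd f (iv w) q)) :=
      smooth_pair W hf (dd_smooth hf _)
    have a4 : ContDiff ℝ ∞ (fun q => W (Φ q) (dd Φ (iv w) q)) :=
      smooth_pair W hΦ (dd_smooth hΦ _)
    have a5 : ContDiff ℝ ∞ (fun q => dd g (iv w) q) := dd_smooth hg _
    have h0 : (fun q : ℝ × V => ((1 - σ q.1) * W (dd Φ (ee V) q) (dd Φ (iv w) q)
      + σ q.1 * W (dd f (ee V) q) (dd f (iv w) q))
      + deriv σ q.1 * (1 / 2 * (W (f q) (dd f (iv w) q) - W (Φ q) (dd Φ (iv w) q))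
        - dd g (iv w) q))
      = fun _ => (0 : ℝ) := by
      funext q
      exact hM q w
    have h1 := congrArg (fun g => fderiv ℝ g p (iv v)) h0
    simp only [fderiv_fun_const, Pi.zero_apply, zero_apply] at h1
    rw [fd_add (df ((hS1.mul a1).add (hS.mul a2)) p)
        (df (hS'.mul ((contDiff_const.mul (a3.sub a4)).sub a5)) p),
      fd_add (df (hS1.mul a1) p) (df (hS.mul a2) p), fd_mul (df hS1 p) (df a1 p),
      fd_mul (df hS p) (df a2 p),
      fd_mul (df hS' p) (df ((contDiff_const.mul (a3.sub a4)).sub a5) p),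
      fd_sub (df (contDiff_const.mul (a3.sub a4)) p) (df a5 p),
      fd_mul (df contDiff_const p) (df (a3.sub a4) p), fd_sub (df a3 p) (df a4 p), hS1d,
      fst_fderiv hσ, fst_fderiv hσ'] at h1
    have hz : (iv v : ℝ × V).1 = 0 := rfl
    rw [hz] at h1
    simp only [fderiv_fun_const, Pi.zero_apply, zero_apply] at h1
    linear_combination h1
  -- the derivative of `Q` in the direction `s`
  have hQ : ContDiff ℝ ∞ (fun q : ℝ × V => (1 - σ q.1) * W (dd Φ (iv v) q) (dd Φ (iv w) q)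
      + σ q.1 * W (dd f (iv v) q) (dd f (iv w) q)) :=
    (hS1.mul (smooth_pair W (dd_smooth hΦ _) (dd_smooth hΦ _))).add
      (hS.mul (smooth_pair W (dd_smooth hf _) (dd_smooth hf _)))
  have hQ0 : ∀ p, fderiv ℝ (fun q : ℝ × V => (1 - σ q.1) * W (dd Φ (iv v) q) (dd Φ (iv w) q)
      + σ q.1 * W (dd f (iv v) q) (dd f (iv w) q)) p (ee V) = 0 := by
    intro p
    have b1 : ContDiff ℝ ∞ (fun q => W (dd Φ (iv v) q) (dd Φ (iv w) q)) :=
      smooth_pair W (dd_smooth hΦ _) (dd_smooth hΦ _)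
    have b2 : ContDiff ℝ ∞ (fun q => W (dd f (iv v) q) (dd f (iv w) q)) :=
      smooth_pair W (dd_smooth hf _) (dd_smooth hf _)
    rw [fd_add (df (hS1.mul b1) p) (df (hS.mul b2) p), fd_mul (df hS1 p) (df b1 p),
      fd_mul (df hS p) (df b2 p), hS1d, fst_fderiv hσ,
      fd_pair W (dfV (dd_smooth hΦ _) p) (dfV (dd_smooth hΦ _) p),
      fd_pair W (dfV (dd_smooth hf _) p) (dfV (dd_smooth hf _) p)]
    have he : (ee V : ℝ × V).1 = 1 := rfl
    rw [he]
    have k1 := key p v w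
    have k2 := key p w v
    have c1 := curl_pair W hΦ (dd_smooth hΦ (ee V)) (iv v) (iv w) p
    have c2 := curl_pair W hf (dd_smooth hf (ee V)) (iv v) (iv w) p
    have c3 := curl_pair W hf hf (iv v) (iv w) p
    have c4 := curl_pair W hΦ hΦ (iv v) (iv w) p
    have c5 := dd_comm hg (iv v) (iv w) p
    have d1 := dd_comm hΦ (iv v) (ee V) p
    have d2 := dd_comm hΦ (iv w) (ee V) p
    have d3 := dd_comm hf (iv v) (ee V) p
    have d4 := dd_comm hf (iv w) (ee V) p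
    rw [d1, d2, d3, d4]
    have w1 := hW (fderiv ℝ (dd Φ (ee V)) p (iv w)) (dd Φ (iv v) p)
    have w2 := hW (fderiv ℝ (dd f (ee V)) p (iv w)) (dd f (iv v) p)
    have w3 : W (fderiv ℝ f p (iv w)) (dd f (iv v) p) = - W (dd f (iv v) p) (dd f (iv w) p) :=
      hW _ _
    have w4 : W (fderiv ℝ Φ p (iv w)) (dd Φ (iv v) p) = - W (dd Φ (iv v) p) (dd Φ (iv w) p) :=
      hW _ _
    have w5 : W (fderiv ℝ f p (iv v)) (dd f (iv w) p) = W (dd f (iv v) p) (dd f (iv w) p) := rfl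
    have w6 : W (fderiv ℝ Φ p (iv v)) (dd Φ (iv w) p) = W (dd Φ (iv v) p) (dd Φ (iv w) p) := rfl
    rw [w3, w5] at c3
    rw [w4, w6] at c4
    rw [w1] at c1
    rw [w2] at c2
    linear_combination k1 - k2 - (1 - σ p.1) * c1 - σ p.1 * c2
      - deriv σ p.1 * (1 / 2) * (c3 - c4) - deriv σ p.1 * c5
  -- constancy along the line
  have hline : ∀ r : ℝ, HasDerivAt (fun r : ℝ => ((r, x) : ℝ × V)) (ee V) r := by
    intro r
    have := (hasDerivAt_id r).prodMk (hasDerivAt_const r x)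
    exact this
  have hd : ∀ r : ℝ, HasDerivAt (fun r : ℝ => (1 - σ r) * W (dd Φ (iv v) (r, x))
      (dd Φ (iv w) (r, x)) + σ r * W (dd f (iv v) (r, x)) (dd f (iv w) (r, x))) 0 r := by
    intro r
    have h1 := (df hQ (r, x)).hasFDerivAt.comp_hasDerivAt r (hline r)
    rw [hQ0] at h1
    exact h1
  exact is_const_of_deriv_eq_zero (fun r => (hd r).differentiableAt) (fun r => (hd r).deriv) s 0

end Pool.Agent.Run7.h233
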