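import Pool.Agent.Helper597_fou.EE2

/-!
# The deformation of families of local diffeomorphisms of the plane torus
-/

set_option autoImplicit false
set_option linter.unusedSectionVars false

open MeasureTheory Set Filter Topology
open scoped ContDiff

noncomputable section

namespace Pool.Agent.Run7.h233

open Pool.Agent.Helper597_fou Pool.Agent.Helper597_fou.PS

variable {M : ℕ} {p q : Fin (M + 1)}

/-- **The deformation theorem for local diffeomorphisms.** Let `φ₁, φ₂` be functions of the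
variables other than `x_j` such that `(x_p, x_q) ↦ (x_p + φ₁, x_q + φ₂)` has positive Jacobian.
There is a family of maps with positive Jacobians and with parameter `x_j`, which are translations
for `x_j = 0`, and which agree with the given one up to translations for `x_j = 1/2`. All maps
depend on the other variables as well. -/
theorem deformation_pos {j : Fin (M + 1)} (hp : p ≠ j) (hq : q ≠ j) {φ₁ φ₂ : PS M}
    (h1 : dd j φ₁ = 0) (h2 : dd j φ₂ = 0) (hJ : ∀ x, 0 < (J p q φ₁ φ₂).1 x) :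
    ∃ Φ₁ Φ₂ : PS M, (∀ x, 0 < (J p q Φ₁ Φ₂).1 x) ∧
      (dd p (sl j 0 Φ₁) = 0 ∧ dd q (sl j 0 Φ₁) = 0 ∧
        dd p (sl j 0 Φ₂) = 0 ∧ dd q (sl j 0 Φ₂) = 0) ∧
      (dd p (sl j (1 / 2) Φ₁) = dd p φ₁ ∧ dd q (sl j (1 / 2) Φ₁) = dd q φ₁ ∧
        dd p (sl j (1 / 2) Φ₂) = dd p φ₂ ∧ dd q (sl j (1 / 2) Φ₂) = dd q φ₂) := by
  set φ : E M → ℂ := fun x => cc φ₁ x + Complex.I * cc φ₂ x with hφdef
  have hφ : SP φ := sp_cx φ₁ φ₂
  have hre : reP hφ = φ₁ := reP_cx φ₁ φ₂
  have him : imP hφ = φ₂ := imP_cx φ₁ φ₂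
  have hjac : ∀ x, 0 < ‖1 + dz p q φ x‖ ^ 2 - ‖dzb p q φ x‖ ^ 2 := by
    intro x
    have h := J_re_im (p := p) (q := q) hφ x
    rw [hre, him, Complex.mul_conj, Complex.mul_conj, Complex.normSq_eq_norm_sq,
      Complex.normSq_eq_norm_sq] at h
    have h' : (J p q φ₁ φ₂).1 x = ‖1 + dz p q φ x‖ ^ 2 - ‖dzb p q φ x‖ ^ 2 := by exact_mod_cast h
    rw [← h']
    exact hJ x
  have hne : ∀ x, 1 + dz p q φ x ≠ 0 := by
    intro x h
    have := hjac x
    rw [h, norm_zero] at this
    have h3 := sq_nonneg ‖dzb p q φ x‖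
    nlinarith
  have hden : SP (fun x => 1 + dz p q φ x) := (SP.const 1).add hφ.dz
  set μf : E M → ℂ := fun x => dzb p q φ x * (1 + dz p q φ x)⁻¹ with hμf
  have hμfs : SP μf := hφ.dzb.mul (hden.inv hne)
  have hμf1 : ∀ x, ‖μf x‖ < 1 := by
    intro x
    rw [hμf]
    simp only
    rw [norm_mul, norm_inv, ← div_eq_mul_inv, div_lt_one (norm_pos_iff.2 (hne x))]
    have := hjac x
    have h3 := norm_nonneg (1 + dz p q φ x)
    have h4 := norm_nonneg (dzb p q φ x)
    nlinarith
  obtain ⟨κ, hκ1, hκ⟩ := exists_kappa hμfs hμf1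
  have hκ0 : 0 ≤ κ := (norm_nonneg _).trans (hκ 0)
  set μ : E M → ℂ := fun x => cc (s2 j) x * μf x with hμdef
  have hμ : SP μ := (s2 j).sp.mul hμfs
  have hμκ : ∀ x, ‖μ x‖ ≤ κ := by
    intro x
    rw [hμdef]
    simp only
    rw [norm_mul]
    have h3 : ‖cc (s2 j) x‖ ≤ 1 := by
      unfold cc
      rw [Complex.norm_real, Real.norm_eq_abs, s2_val, abs_of_nonneg (sq_nonneg _)]
      exact Real.sin_sq_le_one _
    have h4 := hκ x
    have h5 := norm_nonneg (cc (s2 j) x)
    have h6 := norm_nonneg (μf x)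
    nlinarith
  have hψ : SP (psiB p q μ) := sp_psiB hμ hμκ hκ1
  set ψ₁ := reP hψ with hψ₁
  set ψ₂ := imP hψ with hψ₂
  set ρ := J p q ψ₁ ψ₂ with hρ
  have hccρ : cc ρ = fun x => jacB p q μ x * (detB p q μ x)⁻¹ := by
    funext x
    have h := J_re_im (p := p) (q := q) hψ x
    rw [jac_psiB hμ hμκ hκ1] at h
    exact h
  have hρpos : ∀ x, 0 < ρ.1 x := by
    intro x
    have h := congrFun hccρ x
    have h3 : ((ρ.1 x : ℝ) : ℂ) = jacB p q μ x * (detB p q μ x)⁻¹ := h
    have e1 : jacB p q μ x = ((jacB p q μ x).re : ℂ) :=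
      (Complex.conj_eq_iff_re.1 (jacB_conj x)).symm
    have e2 : detB p q μ x = ((detB p q μ x).re : ℂ) :=
      (Complex.conj_eq_iff_re.1 (detB_conj x)).symm
    rw [e1, e2] at h3
    have h4 : ρ.1 x = (jacB p q μ x).re * ((detB p q μ x).re)⁻¹ := by exact_mod_cast h3
    rw [h4]
    exact mul_pos (jacB_re_pos hμ hμκ hκ1 x) (inv_pos.2 (detB_re_pos hμ hμκ hκ1 x))
  -- the slices
  have hslice : ∀ (c : ℝ) (f₁ f₂ : PS M),
      (∀ x, dzb p q (fun y => cc f₁ y + Complex.I * cc f₂ y) x =
        μ (rs j c x) * (1 + dz p q (fun y => cc f₁ y + Complex.I * cc f₂ y) x)) →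
      dd p (sl j c ψ₁) = dd p f₁ ∧
      dd q (sl j c ψ₁) = dd q f₁ ∧
      dd p (sl j c ψ₂) = dd p f₂ ∧
      dd q (sl j c ψ₂) = dd q f₂ := by
    intro c f₁ f₂ hf
    have hs := slice_psiB hμ hμκ hκ1 hp hq c (sp_cx f₁ f₂) hf
    have hd := dd_of_dz (p := p) (q := q) (hψ.rs j c) (sp_cx f₁ f₂) (fun x => by
      rw [dz_rs hψ.diff hp hq]
      exact (hs x).1) (fun x => by
      rw [dzb_rs hψ.diff hp hq]
      exact (hs x).2)
    rw [reP_cx, imP_cx] at hd
    have er : reP (hψ.rs j c) = sl j c ψ₁ := rfl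
    have ei : imP (hψ.rs j c) = sl j c ψ₂ := rfl
    rw [er, ei] at hd
    exact hd
  refine ⟨ψ₁, ψ₂, hρpos, ?_, ?_⟩
  · have h3 := hslice 0 0 0 (fun x => by
      have e1 : (fun y => cc (0 : PS M) y + Complex.I * cc (0 : PS M) y) = fun _ => 0 := by
        funext y
        simp [cc]
      have e2 : μ (rs j 0 x) = 0 := by
        rw [hμdef]
        simp only
        unfold cc
        rw [s2_val, rs_self]
        simp
      rw [e1, e2, zero_mul]
      unfold dzb
      rw [pd_const, pd_const]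
      simp)
    simp only [dd_zero] at h3
    exact h3
  · refine hslice (1 / 2) φ₁ φ₂ fun x => ?_
    have e2 : μ (rs j (1 / 2) x) = μf x := by
      have e3 : cc (s2 j) (rs j (1 / 2) x) = 1 := by
        unfold cc
        rw [s2_val, rs_self, show Real.pi * (1 / 2) = Real.pi / 2 by ring, Real.sin_pi_div_two]
        simp
      have e4 : μf (rs j (1 / 2) x) = μf x := by
        have hz1 : ∀ y, pd j φ y = 0 := by
          intro y
          have f1 : pd j (cc φ₁) y = 0 := by
            rw [← cc_dd, h1]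
            simp [cc]
          have f2 : pd j (cc φ₂) y = 0 := by
            rw [← cc_dd, h2]
            simp [cc]
          rw [hφdef, pd_add φ₁.sp.diff (φ₂.sp.cmul Complex.I).diff,
            pd_mul (differentiable_const _) φ₂.sp.diff, pd_const, f1, f2]
          simp
        have hφr : (fun y => φ (rs j (1 / 2) y)) = φ := by
          funext y
          exact const_of_pd hφ.diff hz1 y _
        have g1 : ∀ y, dz p q φ (rs j (1 / 2) y) = dz p q φ y := by
          intro y
          have := dz_rs hφ.diff hp hq (1 / 2) y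
          rw [hφr] at this
          exact this.symm
        have g2 : ∀ y, dzb p q φ (rs j (1 / 2) y) = dzb p q φ y := by
          intro y
          have := dzb_rs hφ.diff hp hq (1 / 2) y
          rw [hφr] at this
          exact this.symm
        rw [hμf]
        simp only
        rw [g1, g2]
      rw [hμdef]
      simp only
      rw [e3, e4, one_mul]
    rw [e2, hμf]
    simp only
    have h3 : 1 + dz p q (fun y => cc φ₁ y + Complex.I * cc φ₂ y) x ≠ 0 := hne x
    rw [← hφdef] at h3 ⊢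
    field_simp

/-- the Jacobian has mean one -/
theorem Av_J (hpq : p ≠ q) (a b : PS M) : Av p (Av q (J p q a b)) = 1 := by
  have e : J p q a b = 1 + (dd p (a + a * dd q b) + dd q (b - a * dd p b)) := by
    unfold J
    simp only [dd_add, dd_sub, dd_mul, dd_comm p q b]
    ring
  rw [e, Av_add, Av_add, Av_add, Av_add, Av_dd_self, ← dd_Av, Av_dd_self, Av_zero, Av_one, Av_one]
  ring

/-- a nowhere vanishing Jacobian is positive -/
theorem J_pos (hpq : p ≠ q) {a b : PS M} (h : ∀ x, (J p q a b).1 x ≠ 0) (x : E M) :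
    0 < (J p q a b).1 x := by
  have hc : Continuous (J p q a b).1 := (J p q a b).smooth.continuous
  by_contra hneg
  push Not at hneg
  have hneg' : (J p q a b).1 x < 0 := lt_of_le_of_ne hneg (h x)
  have hall : ∀ y, (J p q a b).1 y < 0 := by
    intro y
    by_contra hy
    push Not at hy
    obtain ⟨z, hz⟩ := mem_range_of_exists_le_of_exists_ge hc ⟨x, hneg'.le⟩ ⟨y, hy⟩
    exact h z hz
  have h1 : ∀ y, 0 < (-J p q a b).1 y := fun y => by
    rw [neg_val]
    exact neg_pos.2 (hall y)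
  have h2 := Av_pos (Av_pos h1 q) p x
  have h3 : Av p (Av q (-J p q a b)) = -1 := by
    rw [← zero_sub, Av_sub, Av_sub, Av_J hpq, Av_zero, Av_zero, zero_sub]
  rw [h3, neg_val, one_val] at h2
  linarith

end Pool.Agent.Run7.h233
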