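import Pool.Agent.Helper597_torsymp.Basic

/-!
# Definitions used in the results on the symplectomorphisms of `T^{2n}`

The space `V n = ℝ^{2n}`, its symplectic form `om`, the lattice vectors `lat k`, the lifts of
symplectomorphisms `IsTorusSymp` and the relation `SymplecticallyIsotopic` are those of
`Pool.Agent.Helper597_torsymp.Basic`.
-/

set_option autoImplicit false

open Set
open scoped ContDiff

noncomputable section

namespace Pool.Agent.Run7.h233

open Pool.Agent.Helper597_torsymp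

variable {n : ℕ}

/-- `A` never reverses the form: there is no `v ≠ 0` with `ω (A v, A w) = -c ω (v, w)` for all
`w`, with a constant `c ≥ 0` -/
def NR (A : V n → V n) : Prop :=
  ∀ v : V n, v ≠ 0 → ∀ c : ℝ, 0 ≤ c → ∃ w : V n, om (A v) (A w) ≠ -c * om v w

/-- smooth periodic functions -/
def SmoothPer (φ : V n → ℝ) : Prop :=
  ContDiff ℝ ∞ φ ∧ ∀ (x : V n) (k : Fin n ⊕ Fin n → ℤ), φ (x + lat k) = φ x

/-- Let `P` be the image of the projection `π`. The operators `π X + μ`, `μ ≥ 0`, of `P` never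
reverse the form: there are no `μ ≥ 0`, `c ≥ 0` and `v ≠ 0` in `P` such that
`ω (π X v + μ v, π X w + μ w) = -c ω (v, w)` for all `w` in `P`. -/
def BlockNR (π : V n →ₗ[ℝ] V n) (X : V n → V n) : Prop :=
  ∀ μ : ℝ, 0 ≤ μ → ∀ c : ℝ, 0 ≤ c → ∀ v : V n, π v = v → v ≠ 0 →
    ∃ w : V n, π w = w ∧ om (π (X v) + μ • v) (π (X w) + μ • w) ≠ -c * om v w

/-- `F : ℝ^{2n} → ℝ^{2n}` is the lift of a diffeomorphism of the torus `ℝ^{2n} / ℤ^{2n}` which acts
trivially on homology: a diffeomorphism with `F (x + k) = F x + k` for all `k ∈ ℤ^{2n}` -/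
structure IsTorusDiffeo (F : V n → V n) : Prop where
  smooth : ContDiff ℝ ∞ F
  inverse : ∃ H : V n → V n, ContDiff ℝ ∞ H ∧ Function.LeftInverse H F ∧ Function.RightInverse H F
  equivariant : ∀ (x : V n) (k : Fin n ⊕ Fin n → ℤ), F (x + lat k) = F x + lat k

/-- the diffeomorphisms of the torus with lifts `F₀` and `F₁` are smoothly isotopic: there is a
smooth family of lifts of diffeomorphisms `G t`, `t ∈ [0, 1]`, from `F₀` to `F₁` -/
def SmoothlyIsotopic (F₀ F₁ : V n → V n) : Prop :=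
  ∃ G : ℝ → V n → V n, ContDiff ℝ ∞ (fun p : ℝ × V n => G p.1 p.2) ∧ G 0 = F₀ ∧ G 1 = F₁ ∧
    ∀ t ∈ Icc (0 : ℝ) 1, IsTorusDiffeo (G t)

/-- the principal submatrix of the derivatives of `ψ` with rows and columns in `I` is invertible at
every point -/
def PrincipalInv (ψ : V n → V n) (I : Finset (Fin n ⊕ Fin n)) : Prop :=
  ∀ x v : V n, (∀ γ, γ ∉ I → v γ = 0) → (∀ γ ∈ I, fderiv ℝ ψ x v γ = 0) → v = 0

/-- the linear map of `ℝ^{2n}` with the integer matrix `A` -/
def imul (A : Matrix (Fin n ⊕ Fin n) (Fin n ⊕ Fin n) ℤ) (v : V n) : V n :=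
  (A.map (Int.cast : ℤ → ℝ)).mulVec v

end Pool.Agent.Run7.h233
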