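import Pool.Agent.Run7.h233.Defs
import Pool.Agent.Run7.h233.Def2
import Pool.Agent.Helper597_torsymp.Coord2

/-!
# Smooth isotopies of diffeomorphisms of the torus `T^{2n}`
-/

set_option autoImplicit false
set_option linter.unusedSectionVars false

open Set Filter Topology MeasureTheory
open scoped ContDiff

noncomputable section

namespace Pool.Agent.Run7.h233

open Pool.Agent.Helper597_torsymp Pool.Agent.Helper597_fou Pool.Agent.Helper597_fou.PS

variable {n : ℕ}

theorem isTorusDiffeo_id : IsTorusDiffeo (id : V n → V n) :=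
  ⟨contDiff_id, ⟨id, contDiff_id, fun _ => rfl, fun _ => rfl⟩, fun _ _ => rfl⟩

theorem IsTorusDiffeo.diff {F : V n → V n} (h : IsTorusDiffeo F) : Differentiable ℝ F :=
  h.smooth.differentiable (by simp)

theorem IsTorusDiffeo.injective {F : V n → V n} (h : IsTorusDiffeo F) : Function.Injective F := by
  obtain ⟨H, -, hl, -⟩ := h.inverse
  exact hl.injective

/-- an isotopy, reparametrised to be constant near the ends and defined for all times -/
theorem SmoothlyIsotopic.exists_flat {F₀ F₁ : V n → V n} (h : SmoothlyIsotopic F₀ F₁) :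
    ∃ G : ℝ → V n → V n, ContDiff ℝ ∞ (fun p : ℝ × V n => G p.1 p.2) ∧
      (∀ t ≤ 0, G t = F₀) ∧ (∀ t, 1 ≤ t → G t = F₁) ∧ ∀ t, IsTorusDiffeo (G t) := by
  obtain ⟨G, hG, h0, h1, hs⟩ := h
  refine ⟨fun t => G (Real.smoothTransition t), ?_, fun t ht => ?_, fun t ht => ?_, fun t => ?_⟩
  · have : ContDiff ℝ ∞ fun p : ℝ × V n => ((Real.smoothTransition p.1, p.2) : ℝ × V n) :=
      (Real.smoothTransition.contDiff.comp contDiff_fst).prodMk contDiff_snd
    exact hG.comp this
  · show G (Real.smoothTransition t) = F₀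
    rw [Real.smoothTransition.zero_of_nonpos ht, h0]
  · show G (Real.smoothTransition t) = F₁
    rw [Real.smoothTransition.one_of_one_le ht, h1]
  · exact hs _ ⟨Real.smoothTransition.nonneg t, Real.smoothTransition.le_one t⟩

theorem SmoothlyIsotopic.trans {F₀ F₁ F₂ : V n → V n}
    (h : SmoothlyIsotopic F₀ F₁) (h' : SmoothlyIsotopic F₁ F₂) : SmoothlyIsotopic F₀ F₂ := by
  obtain ⟨G, hG, hG0, hG1, hGs⟩ := h.exists_flat
  obtain ⟨G', hG', hG'0, hG'1, hG's⟩ := h'.exists_flat
  refine ⟨fun t => if t < 1 / 2 then G (3 * t) else G' (3 * t - 2), ?_, ?_, ?_, ?_⟩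
  · rw [contDiff_iff_contDiffAt]
    rintro ⟨t, x⟩
    have hc1 : ContDiff ℝ ∞ fun p : ℝ × V n => G (3 * p.1) p.2 := by
      have : ContDiff ℝ ∞ fun p : ℝ × V n => ((3 * p.1, p.2) : ℝ × V n) :=
        (contDiff_const.mul contDiff_fst).prodMk contDiff_snd
      exact hG.comp this
    have hc2 : ContDiff ℝ ∞ fun p : ℝ × V n => G' (3 * p.1 - 2) p.2 := by
      have : ContDiff ℝ ∞ fun p : ℝ × V n => ((3 * p.1 - 2, p.2) : ℝ × V n) :=
        ((contDiff_const.mul contDiff_fst).sub contDiff_const).prodMk contDiff_snd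
      exact hG'.comp this
    rcases lt_or_ge t (2 / 3) with ht | ht
    · refine hc1.contDiffAt.congr_of_eventuallyEq ?_
      have hev : ∀ᶠ p : ℝ × V n in 𝓝 (t, x), p.1 < 2 / 3 :=
        continuous_fst.continuousAt.eventually (Iio_mem_nhds ht)
      filter_upwards [hev] with p hp
      by_cases hp2 : p.1 < 1 / 2
      · simp only [hp2, if_true]
      · simp only [hp2, if_false]
        rw [hG1 (3 * p.1) (by linarith), hG'0 (3 * p.1 - 2) (by linarith)]
    · refine hc2.contDiffAt.congr_of_eventuallyEq ?_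
      have hev : ∀ᶠ p : ℝ × V n in 𝓝 (t, x), 1 / 2 < p.1 :=
        continuous_fst.continuousAt.eventually (Ioi_mem_nhds (by simp only; linarith))
      filter_upwards [hev] with p hp
      have hp2 : ¬ p.1 < 1 / 2 := not_lt.2 hp.le
      simp only [hp2, if_false]
  · simp only [show (0 : ℝ) < 1 / 2 by norm_num, if_true]
    exact hG0 _ (by norm_num)
  · simp only [show ¬ (1 : ℝ) < 1 / 2 by norm_num, if_false]
    exact hG'1 _ (by norm_num)
  · intro t _
    by_cases ht : t < 1 / 2
    · simp only [ht, if_true]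
      exact hGs _
    · simp only [ht, if_false]
      exact hG's _

theorem IsTorusDiffeo.comp {F G : V n → V n} (hF : IsTorusDiffeo F) (hG : IsTorusDiffeo G) :
    IsTorusDiffeo (fun x => F (G x)) := by
  obtain ⟨F', hF', hF1, hF2⟩ := hF.inverse
  obtain ⟨G', hG', hG1, hG2⟩ := hG.inverse
  refine ⟨hF.smooth.comp hG.smooth, ⟨fun x => G' (F' x), hG'.comp hF', fun x => ?_, fun x => ?_⟩,
    fun x k => ?_⟩
  · simp only
    rw [hF1, hG1]
  · simp only
    rw [hG2, hF2]
  · rw [hG.equivariant, hF.equivariant]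

theorem SmoothlyIsotopic.comp_right {F₀ F₁ K : V n → V n}
    (h : SmoothlyIsotopic F₀ F₁) (hK : IsTorusDiffeo K) :
    SmoothlyIsotopic (fun x => F₀ (K x)) (fun x => F₁ (K x)) := by
  obtain ⟨G, hG, h0, h1, hs⟩ := h
  refine ⟨fun t x => G t (K x), ?_, by simp only [h0], by simp only [h1],
    fun t ht => (hs t ht).comp hK⟩
  have : ContDiff ℝ ∞ fun p : ℝ × V n => ((p.1, K p.2) : ℝ × V n) :=
    contDiff_fst.prodMk (hK.smooth.comp contDiff_snd)
  exact hG.comp this

/-- A smooth family of equivariant local diffeomorphisms, one of which is injective, is an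
isotopy. -/
theorem isotopic_of_family {G : ℝ → V n → V n}
    (hG : ContDiff ℝ ∞ fun p : ℝ × V n => G p.1 p.2)
    (he : ∀ t x (k : Fin n ⊕ Fin n → ℤ), G t (x + lat k) = G t x + lat k)
    (hi : ∀ t x v, fderiv ℝ (G t) x v = 0 → v = 0) {a : ℝ} (h0 : Function.Injective (G a))
    (b : ℝ) : SmoothlyIsotopic (G a) (G b) := by
  have hfam : IsFam (fun p : ℝ × V n => G p.1 p.2) := ⟨hG, fun t x v hv => hi t x v hv⟩
  obtain ⟨Ψ, hΨ, h1, h2⟩ := hfam.exists_inverse (A := 1) (fun t x k => by
    rw [Matrix.one_mulVec]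
    exact he t x k) (t₀ := a) h0
  have hslice : ∀ t : ℝ, ContDiff ℝ ∞ fun x : V n => ((t, x) : ℝ × V n) := fun t =>
    contDiff_const.prodMk contDiff_id
  have hall : ∀ t, IsTorusDiffeo (G t) := fun t =>
    ⟨hG.comp (hslice t), ⟨fun x => Ψ (t, x), hΨ.comp (hslice t), fun x => h1 t x,
      fun x => h2 t x⟩, he t⟩
  refine ⟨fun s => G (a + s * (b - a)), ?_, ?_, ?_, fun t _ => hall _⟩
  · have : ContDiff ℝ ∞ fun p : ℝ × V n => ((a + p.1 * (b - a), p.2) : ℝ × V n) :=
      (contDiff_const.add (contDiff_fst.mul contDiff_const)).prodMk contDiff_snd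
    exact hG.comp this
  · simp only [zero_mul, add_zero]
  · simp only
    congr 1
    ring

/-! ### Maps which move two coordinates only -/

/-- displacement in two coordinates -/
def two (α β : Fin n ⊕ Fin n) (A B : PS (n + n)) (γ : Fin n ⊕ Fin n) : PS (n + n) :=
  if γ = α then A else if γ = β then B else 0

theorem two_left (α β : Fin n ⊕ Fin n) (A B : PS (n + n)) : two α β A B α = A := by
  simp [two]

theorem two_right {α β : Fin n ⊕ Fin n} (h : α ≠ β) (A B : PS (n + n)) : two α β A B β = B := by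
  simp [two, Ne.symm h]

theorem two_other {α β γ : Fin n ⊕ Fin n} (h1 : γ ≠ α) (h2 : γ ≠ β) (A B : PS (n + n)) :
    two α β A B γ = 0 := by
  simp [two, h1, h2]

theorem sum_bv (L : V n →L[ℝ] V n) (v : V n) (γ : Fin n ⊕ Fin n) :
    L v γ = ∑ δ, v δ * L (bv δ) γ := by
  have h : v = ∑ δ, v δ • (bv δ : V n) := by
    funext γ
    rw [Finset.sum_apply]
    simp [bv, Pi.single_apply]
  conv_lhs => rw [h]
  rw [map_sum, Finset.sum_apply]
  exact Finset.sum_congr rfl fun δ _ => by rw [map_smul]; rfl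

/-- the derivative of a map which moves two coordinates -/
theorem fderiv_two {α β : Fin n ⊕ Fin n} (A B : PS (n + n)) (t : ℝ)
    (x v : V n) (γ : Fin n ⊕ Fin n) :
    fderiv ℝ (fam (two α β A B) t) x v γ = v γ + ∑ δ, v δ * ev t (dd (ix δ) (two α β A B γ)) x := by
  rw [sum_bv]
  simp only [fderiv_fam_bv, mul_add, Finset.sum_add_distrib]
  congr 1
  simp

theorem two_inj {α β : Fin n ⊕ Fin n} (h : α ≠ β) {A B : PS (n + n)} {t : ℝ} {x : V n}
    (hJ : ev t (J (ix α) (ix β) A B) x ≠ 0) (v : V n)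
    (hv : fderiv ℝ (fam (two α β A B) t) x v = 0) : v = 0 := by
  have hother : ∀ γ, γ ≠ α → γ ≠ β → v γ = 0 := by
    intro γ h1 h2
    have h3 := congrFun hv γ
    rw [fderiv_two, two_other h1 h2] at h3
    simpa [ev_zero] using h3
  have hsum : ∀ f : (Fin n ⊕ Fin n) → ℝ, ∑ δ, v δ * f δ = v α * f α + v β * f β := by
    intro f
    rw [← Finset.add_sum_erase _ _ (Finset.mem_univ α),
      ← Finset.add_sum_erase _ _ (Finset.mem_erase.2 ⟨Ne.symm h, Finset.mem_univ β⟩),
      Finset.sum_eq_zero, add_zero]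
    intro γ hγ
    rw [Finset.mem_erase, Finset.mem_erase] at hγ
    rw [hother γ hγ.2.1 hγ.1, zero_mul]
  have e1 := congrFun hv α
  have e2 := congrFun hv β
  rw [fderiv_two, hsum, two_left] at e1
  rw [fderiv_two, hsum, two_right h] at e2
  rw [ev_J] at hJ
  simp only [Pi.zero_apply] at e1 e2
  have h1 : v α = 0 := by
    have : ((1 + ev t (dd (ix α) A) x) * (1 + ev t (dd (ix β) B) x) -
      ev t (dd (ix β) A) x * ev t (dd (ix α) B) x) * v α = 0 := by
      linear_combination (1 + ev t (dd (ix β) B) x) * e1 - ev t (dd (ix β) A) x * e2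
    exact (mul_eq_zero.1 this).resolve_left hJ
  have h2 : v β = 0 := by
    have : ((1 + ev t (dd (ix α) A) x) * (1 + ev t (dd (ix β) B) x) -
      ev t (dd (ix β) A) x * ev t (dd (ix α) B) x) * v β = 0 := by
      linear_combination (1 + ev t (dd (ix α) A) x) * e2 - ev t (dd (ix α) B) x * e1
    exact (mul_eq_zero.1 this).resolve_left hJ
  funext γ
  by_cases hα : γ = α
  · rw [hα, h1]; rfl
  · by_cases hβ : γ = β
    · rw [hβ, h2]; rfl
    · rw [hother γ hα hβ]; rfl

theorem two_J_ne {α β : Fin n ⊕ Fin n} (h : α ≠ β) {A B : PS (n + n)} {t : ℝ} {x : V n}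
    (hi : ∀ v : V n, fderiv ℝ (fam (two α β A B) t) x v = 0 → v = 0) :
    ev t (J (ix α) (ix β) A B) x ≠ 0 := by
  intro hJ
  rw [ev_J] at hJ
  set a11 := 1 + ev t (dd (ix α) A) x with h11
  set a12 := ev t (dd (ix β) A) x with h12
  set a21 := ev t (dd (ix α) B) x with h21
  set a22 := 1 + ev t (dd (ix β) B) x with h22
  have key : ∀ r s : ℝ, a11 * r + a12 * s = 0 → a21 * r + a22 * s = 0 → r = 0 ∧ s = 0 := by
    intro r s hr hs
    set v : V n := r • bv α + s • bv β with hv
    have vα : v α = r := by simp [hv, bv, h]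
    have vβ : v β = s := by simp [hv, bv, Ne.symm h]
    have vo : ∀ γ, γ ≠ α → γ ≠ β → v γ = 0 := by
      intro γ h1 h2
      simp [hv, bv, h1, h2]
    have hsum : ∀ f : (Fin n ⊕ Fin n) → ℝ, ∑ δ, v δ * f δ = v α * f α + v β * f β := by
      intro f
      rw [← Finset.add_sum_erase _ _ (Finset.mem_univ α),
        ← Finset.add_sum_erase _ _ (Finset.mem_erase.2 ⟨Ne.symm h, Finset.mem_univ β⟩),
        Finset.sum_eq_zero, add_zero]
      intro γ hγ
      rw [Finset.mem_erase, Finset.mem_erase] at hγ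
      rw [vo γ hγ.2.1 hγ.1, zero_mul]
    have hv0 : v = 0 := by
      refine hi v ?_
      funext γ
      rw [fderiv_two, hsum]
      by_cases hα : γ = α
      · subst hα
        rw [two_left, vα, vβ]
        simp only [Pi.zero_apply]
        linear_combination hr
      · by_cases hβ : γ = β
        · subst hβ
          rw [two_right h, vα, vβ]
          simp only [Pi.zero_apply]
          linear_combination hs
        · rw [two_other hα hβ, vo γ hα hβ]
          simp [ev_zero]
    rw [← vα, ← vβ, hv0]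
    exact ⟨rfl, rfl⟩
  have k1 := key (-a12) a11 (by ring) (by linarith)
  have k2 := key a22 (-a21) (by linarith) (by ring)
  have k3 := key 1 0 (by rw [k1.2]; ring) (by
    have := k2.2
    have h3 : a21 = 0 := by linarith
    rw [h3]; ring)
  exact one_ne_zero k3.1

end Pool.Agent.Run7.h233
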