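import Pool.Agent.GR.Flow

/-!
# Flows of bounded Lipschitz time-dependent vector fields
-/

set_option autoImplicit false

open Topology Filter Set
open scoped ContDiff NNReal

namespace Pool.Agent.Run7.h233

variable {E : Type} [NormedAddCommGroup E] [NormedSpace ℝ E] [CompleteSpace E]

/-- A smooth bounded Lipschitz time-dependent vector field has a smooth flow from time zero. -/
theorem exists_flow_from_zero {X : ℝ × E → E} (hX : ContDiff ℝ ∞ X) {K : ℝ≥0}
    (hK : LipschitzWith K X) {M : ℝ} (hM : ∀ p, ‖X p‖ ≤ M) :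
    ∃ F : ℝ → E → E, ContDiff ℝ ∞ (fun p : ℝ × E => F p.1 p.2) ∧ (∀ x, F 0 x = x) ∧
      ∀ t x, HasDerivAt (fun t => F t x) (X (t, F t x)) t := by
  let Y : C(ℝ × E, ℝ × E) := ⟨fun p => (1, X p), continuous_const.prodMk hX.continuous⟩
  have hY : ContDiff ℝ ∞ Y := contDiff_const.prodMk hX
  have hYK : LipschitzWith K Y := by
    refine LipschitzWith.of_dist_le_mul fun p q => ?_
    have h1 : dist (Y p) (Y q) = dist (X p) (X q) := by
      rw [Prod.dist_eq]
      change max (dist (1 : ℝ) 1) (dist (X p) (X q)) = _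
      rw [dist_self]
      exact max_eq_right dist_nonneg
    rw [h1]
    exact hK.dist_le_mul p q
  have hYM : ∀ p, ‖Y p‖ ≤ ((1 ⊔ Real.toNNReal M : ℝ≥0) : ℝ) := by
    intro p
    change ‖((1 : ℝ), X p)‖ ≤ _
    rw [Prod.norm_def]
    refine max_le ?_ ?_
    · simp
    · exact (hM p).trans ((Real.le_coe_toNNReal M).trans (by
        exact_mod_cast le_sup_right))
  choose g h0 h1 using fun p => Pool.Agent.GR.Flow.exists_solution hYK hYM p
  have hfl : Pool.Agent.GR.Flow.IsFlowOf Y (fun t p => g p t) := ⟨h0, h1⟩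
  have hsm : ContDiff ℝ ∞ (fun q : ℝ × (ℝ × E) => g q.2 q.1) := by
    rw [contDiff_infty]
    intro m
    have key : ∀ m : ℕ, m ≠ 0 → ContDiff ℝ m (fun q : ℝ × (ℝ × E) => g q.2 q.1) := by
      intro m hm
      exact Pool.Agent.GR.Flow.contDiff_flow hm (hY.of_le (by exact_mod_cast le_top)) hYK hfl
    exact (key (m + 1) (by omega)).of_le (by exact_mod_cast Nat.le_succ m)
  have hfst : ∀ p t, (g p t).1 = p.1 + t := by
    intro p t
    have hd : ∀ t, HasDerivAt (fun t => (g p t).1 - t) 0 t := by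
      intro t
      have h2 : HasDerivAt (fun t => (g p t).1) (1 : ℝ) t :=
        (hasFDerivAt_fst (𝕜 := ℝ) (E := ℝ) (F := E) (p := g p t)).comp_hasDerivAt t (h1 p t)
      have := h2.sub (hasDerivAt_id t)
      rw [sub_self] at this
      exact this
    have hconst := is_const_of_deriv_eq_zero (f := fun t => (g p t).1 - t)
      (fun t => (hd t).differentiableAt) (fun t => (hd t).deriv) t 0
    simp only [h0] at hconst
    linarith
  refine ⟨fun t x => (g (0, x) t).2, ?_, ?_, ?_⟩
  · have h2 : ContDiff ℝ ∞ (fun p : ℝ × E => (p.1, ((0 : ℝ), p.2))) :=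
      contDiff_fst.prodMk (contDiff_const.prodMk contDiff_snd)
    exact contDiff_snd.comp (hsm.comp h2)
  · intro x
    simp only [h0]
  · intro t x
    have h3 : g (0, x) t = (t, (g (0, x) t).2) := Prod.ext (by rw [hfst]; simp) rfl
    have h2 : HasDerivAt (fun t => (g (0, x) t).2) (X (g (0, x) t)) t :=
      (hasFDerivAt_snd (𝕜 := ℝ) (E := ℝ) (F := E) (p := g (0, x) t)).comp_hasDerivAt t
        (h1 (0, x) t)
    rw [h3] at h2
    exact h2

/-- boundedness from periods and compactness -/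
theorem bdd_of_periods {E F : Type*} [NormedAddCommGroup E] [NormedAddCommGroup F] {f : E → F}
    (hf : Continuous f) {K : Set E} (hK : IsCompact K) {Λ : Set E}
    (hper : ∀ q ∈ Λ, ∀ p, f (p + q) = f p) (hred : ∀ p, ∃ q ∈ Λ, p + q ∈ K) :
    ∃ M, ∀ p, ‖f p‖ ≤ M := by
  obtain ⟨M, hM⟩ := hK.exists_bound_of_continuousOn hf.continuousOn
  refine ⟨M, fun p => ?_⟩
  obtain ⟨q, hq, h⟩ := hred p
  rw [← hper q hq p]
  exact hM _ h

/-- the Lipschitz property from periods and compactness -/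
theorem lipschitz_of_periods {E F : Type*} [NormedAddCommGroup E] [NormedSpace ℝ E]
    [NormedAddCommGroup F] [NormedSpace ℝ F] {f : E → F}
    (hf : ContDiff ℝ ∞ f) {K : Set E} (hK : IsCompact K) {Λ : Set E}
    (hper : ∀ q ∈ Λ, ∀ p, f (p + q) = f p) (hred : ∀ p, ∃ q ∈ Λ, p + q ∈ K) :
    ∃ L : ℝ≥0, LipschitzWith L f := by
  have hd : Continuous (fderiv ℝ f) := hf.continuous_fderiv (by simp)
  have hper' : ∀ q ∈ Λ, ∀ p, fderiv ℝ f (p + q) = fderiv ℝ f p := by
    intro q hq p
    have h1 : (fun x => f (x + q)) = f := funext fun x => hper q hq x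
    have h2 := fderiv_comp_add_right (𝕜 := ℝ) (f := f) (x := p) q
    rw [h1] at h2
    exact h2.symm
  obtain ⟨M, hM⟩ := bdd_of_periods hd hK hper' hred
  refine ⟨Real.toNNReal M, lipschitzWith_of_nnnorm_fderiv_le (hf.differentiable (by simp))
    fun x => ?_⟩
  rw [← NNReal.coe_le_coe, coe_nnnorm]
  exact (hM x).trans (Real.le_coe_toNNReal M)

end Pool.Agent.Run7.h233
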