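import Pool.Agent.Run7.h233.Defs
import Pool.Agent.Run7.h233.Cons
import Pool.Agent.Run7.h233.Flow
import Pool.Agent.Helper597_torsymp.Iso

/-!
# Moser's argument on the torus, for families of maps which never reverse the symplectic form
-/

set_option autoImplicit false

open Set Filter Topology
open scoped ContDiff NNReal

namespace Pool.Agent.Run7.h233

open Pool.Agent.Helper597_torsymp Pool.Agent.W5h49.EC

variable {n : ℕ}

/-! ### The form -/

/-- `om` as a continuous bilinear form -/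
noncomputable def omW (n : ℕ) : V n →L[ℝ] V n →L[ℝ] ℝ :=
  LinearMap.toContinuousLinearMap
    ({ toFun := fun u => LinearMap.toContinuousLinearMap
        ({ toFun := fun v => om u v
           map_add' := fun v v' => om_add_right u v v'
           map_smul' := fun c v => om_smul_right c u v } : V n →ₗ[ℝ] ℝ)
       map_add' := fun u u' => by
        refine ContinuousLinearMap.ext fun v => ?_
        exact om_add_left _ _ _
       map_smul' := fun c u => by
        refine ContinuousLinearMap.ext fun v => ?_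
        exact om_smul_left _ _ _ } : V n →ₗ[ℝ] (V n →L[ℝ] ℝ))

theorem omW_apply (u v : V n) : omW n u v = om u v := rfl

theorem om_anti (u v : V n) : om u v = - om v u := by
  unfold om
  rw [← Finset.sum_neg_distrib]
  exact Finset.sum_congr rfl fun i _ => by ring

theorem omW_anti (u v : V n) : omW n u v = - omW n v u := om_anti u v

/-- the interpolated form `(1 - s) ω + s A^* ω` -/
noncomputable def Omg (s : ℝ) (A : V n →L[ℝ] V n) : V n →L[ℝ] V n →L[ℝ] ℝ :=
  (1 - s) • omW n +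
    s • (((ContinuousLinearMap.compL ℝ (V n) (V n) ℝ).flip A).comp ((omW n).comp A))

theorem Omg_apply (s : ℝ) (A : V n →L[ℝ] V n) (u v : V n) :
    Omg s A u v = (1 - s) * omW n u v + s * omW n (A u) (A v) := by
  unfold Omg
  simp

theorem smul_smooth' {P F : Type*} [NormedAddCommGroup P] [NormedSpace ℝ P] [NormedAddCommGroup F]
    [NormedSpace ℝ F] {s : P → ℝ} {f : P → F} (hs : ContDiff ℝ ∞ s) (hf : ContDiff ℝ ∞ f) :
    ContDiff ℝ ∞ (fun p => s p • f p) := hs.smul hf

theorem Omg_smooth {P : Type*} [NormedAddCommGroup P] [NormedSpace ℝ P] {s : P → ℝ}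
    {A : P → V n →L[ℝ] V n} (hs : ContDiff ℝ ∞ s) (hA : ContDiff ℝ ∞ A) :
    ContDiff ℝ ∞ (fun p => Omg (s p) (A p)) := by
  unfold Omg
  have h1 : ContDiff ℝ ∞ (fun p => (ContinuousLinearMap.compL ℝ (V n) (V n) ℝ).flip (A p)) :=
    (ContinuousLinearMap.contDiff _).comp hA
  have h2 : ContDiff ℝ ∞ (fun p => (omW n).comp (A p)) := contDiff_const.clm_comp hA
  exact (smul_smooth' (contDiff_const.sub hs) contDiff_const).add
    (smul_smooth' hs (h1.clm_comp h2))

/-- an injective map between spaces of the same dimension is invertible -/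
theorem exists_equiv' {E F : Type*} [NormedAddCommGroup E] [NormedSpace ℝ E]
    [FiniteDimensional ℝ E] [NormedAddCommGroup F] [NormedSpace ℝ F] [FiniteDimensional ℝ F]
    (hd : Module.finrank ℝ E = Module.finrank ℝ F) (L : E →L[ℝ] F) (hL : ∀ v, L v = 0 → v = 0) :
    ∃ e : E ≃L[ℝ] F, (e : E →L[ℝ] F) = L := by
  have hi : Function.Injective (L : E →ₗ[ℝ] F) := by
    rw [← LinearMap.ker_eq_bot, LinearMap.ker_eq_bot']
    exact hL
  refine ⟨(LinearEquiv.ofInjectiveOfFinrankEq (L : E →ₗ[ℝ] F) hi hd).toContinuousLinearEquiv, ?_⟩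
  ext v
  rfl

theorem finrank_dual' : Module.finrank ℝ (V n) = Module.finrank ℝ (V n →L[ℝ] ℝ) := by
  have h1 : Module.finrank ℝ (V n →L[ℝ] ℝ) = Module.finrank ℝ (V n →ₗ[ℝ] ℝ) :=
    (LinearMap.toContinuousLinearMap (𝕜 := ℝ) (E := V n) (F' := ℝ)).symm.finrank_eq
  rw [h1, Module.finrank_linearMap]
  simp

/-- inverse of a smooth family of invertible maps -/
theorem inverse_smooth' {P E F : Type*} [NormedAddCommGroup P] [NormedSpace ℝ P]
    [NormedAddCommGroup E] [NormedSpace ℝ E]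
    [FiniteDimensional ℝ E] [NormedAddCommGroup F] [NormedSpace ℝ F] [FiniteDimensional ℝ F]
    (hd : Module.finrank ℝ E = Module.finrank ℝ F) {L : P → E →L[ℝ] F} (hL : ContDiff ℝ ∞ L)
    (hi : ∀ p v, L p v = 0 → v = 0) : ContDiff ℝ ∞ (fun p => (L p).inverse) := by
  have : CompleteSpace E := FiniteDimensional.complete ℝ E
  rw [contDiff_iff_contDiffAt]
  intro p
  obtain ⟨e, he⟩ := exists_equiv' hd (L p) (hi p)
  have h1 : ContDiffAt ℝ ∞ ContinuousLinearMap.inverse (L p) := by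
    rw [← he]
    exact contDiffAt_map_inverse e
  exact h1.comp p hL.contDiffAt

theorem inverse_apply' {E F : Type*} [NormedAddCommGroup E] [NormedSpace ℝ E]
    [FiniteDimensional ℝ E] [NormedAddCommGroup F] [NormedSpace ℝ F] [FiniteDimensional ℝ F]
    (hd : Module.finrank ℝ E = Module.finrank ℝ F) (L : E →L[ℝ] F) (hL : ∀ v, L v = 0 → v = 0)
    (y : F) : L (L.inverse y) = y := by
  obtain ⟨e, he⟩ := exists_equiv' hd L hL
  rw [← he, ContinuousLinearMap.inverse_equiv]
  simp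

theorem Omg_inj {s : ℝ} (h0 : 0 ≤ s) (h1 : s ≤ 1) {A : V n →L[ℝ] V n} (hA : NR A) (v : V n)
    (h : Omg s A v = 0) : v = 0 := by
  have h2 : ∀ w, (1 - s) * om v w + s * om (A v) (A w) = 0 := by
    intro w
    rw [← omW_apply, ← omW_apply, ← Omg_apply, h]
    rfl
  by_contra hv
  rcases eq_or_lt_of_le h0 with h3 | h3
  · refine hv (om_nondeg v fun w => ?_)
    have := h2 w
    rw [← h3] at this
    linarith
  · obtain ⟨w, hw⟩ := hA v hv ((1 - s) / s) (div_nonneg (by linarith) h0)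
    apply hw
    have := h2 w
    field_simp
    linarith

/-! ### The time functions -/

/-- a periodic step function -/
noncomputable def sg (s : ℝ) : ℝ := Real.sin (Real.pi * s / 2) ^ 2

theorem sg_smooth : ContDiff ℝ ∞ sg := by
  unfold sg
  fun_prop

theorem sg_nonneg (s : ℝ) : 0 ≤ sg s := sq_nonneg _

theorem sg_le_one (s : ℝ) : sg s ≤ 1 := Real.sin_sq_le_one _

theorem sg_mem (s : ℝ) : sg s ∈ Icc (0 : ℝ) 1 := ⟨sg_nonneg s, sg_le_one s⟩

theorem sg_zero : sg 0 = 0 := by simp [sg]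

theorem sg_one : sg 1 = 1 := by simp [sg]

theorem sg_per (s : ℝ) : sg (s + 2) = sg s := by
  unfold sg
  have : Real.pi * (s + 2) / 2 = Real.pi * s / 2 + Real.pi := by ring
  rw [this, Real.sin_add_pi, neg_sq]

theorem sg_per_int (s : ℝ) (a : ℤ) : sg (s + a * 2) = sg s :=
  (show Function.Periodic sg 2 from sg_per).int_mul a s

theorem dsg_smooth : ContDiff ℝ ∞ (deriv sg) := (contDiff_infty_iff_deriv.1 sg_smooth).2

theorem dsg_per_int (s : ℝ) (a : ℤ) : deriv sg (s + a * 2) = deriv sg s := by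
  have h : (fun s => sg (s + a * 2)) = sg := funext fun s => sg_per_int s a
  have h1 := deriv_comp_add_const (f := sg) (a := a * 2) (x := s)
  rw [h] at h1
  exact h1.symm

/-! ### The vector field -/

/-- the differential in the space variable -/
noncomputable def DX (F : ℝ × V n → V n) (z : ℝ × V n) : V n →L[ℝ] V n :=
  (fderiv ℝ F z).comp (ContinuousLinearMap.inr ℝ ℝ (V n))

theorem DX_smooth {F : ℝ × V n → V n} (hF : ContDiff ℝ ∞ F) : ContDiff ℝ ∞ (DX F) :=
  (hF.fderiv_right (m := ∞) (by simp)).clm_comp contDiff_const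

theorem DX_eq {F : ℝ × V n → V n} (hF : ContDiff ℝ ∞ F) (t : ℝ) (x : V n) :
    HasFDerivAt (fun y => F (t, y)) (DX F (t, x)) x := by
  have h1 : HasFDerivAt F (fderiv ℝ F (t, x)) (t, x) :=
    ((hF.differentiable (by simp)) _).hasFDerivAt
  exact h1.comp x (hasFDerivAt_prodMk_right t x)

/-- the primitive of `F_t^* ω - ω` -/
noncomputable def al (F : ℝ × V n → V n) (z : ℝ × V n) : V n →L[ℝ] ℝ :=
  (1 / 2 : ℝ) • (omW n (F z - z.2)).comp (ContinuousLinearMap.id ℝ (V n) + DX F z)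

theorem al_apply (F : ℝ × V n → V n) (z : ℝ × V n) (w : V n) :
    al F z w = 1 / 2 * om (F z - z.2) (w + DX F z w) := by
  rfl

theorem al_smooth {F : ℝ × V n → V n} (hF : ContDiff ℝ ∞ F) : ContDiff ℝ ∞ (al F) := by
  unfold al
  refine smul_smooth' contDiff_const ?_
  exact ((omW n).contDiff.comp (hF.sub contDiff_snd)).clm_comp
    (contDiff_const.add (DX_smooth hF))

/-- the Moser vector field; `q = (s, (t, x))` -/
noncomputable def Xf (F : ℝ × V n → V n) (q : ℝ × (ℝ × V n)) : V n :=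
  - (deriv sg q.1 • (Omg (sg q.1) (DX F q.2)).inverse (al F q.2))

/-- a periodic family of equivariant maps which never reverse the form -/
structure NRFam (F : ℝ × V n → V n) : Prop where
  smooth : ContDiff ℝ ∞ F
  per : ∀ t x, F (t + 2, x) = F (t, x)
  equi : ∀ t x (k : Fin n ⊕ Fin n → ℤ), F (t, x + lat k) = F (t, x) + lat k
  nr : ∀ z, NR (DX F z)

variable {F : ℝ × V n → V n}

theorem NRFam.per_int (h : NRFam F) (t : ℝ) (x : V n) (b : ℤ) :
    F (t + b * 2, x) = F (t, x) :=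
  (show Function.Periodic (fun t => F (t, x)) 2 from fun t => h.per t x).int_mul b t

theorem NRFam.Xf_smooth (h : NRFam F) : ContDiff ℝ ∞ (Xf F) := by
  unfold Xf
  refine ContDiff.neg (smul_smooth' (dsg_smooth.comp contDiff_fst) ?_)
  refine (inverse_smooth' finrank_dual' (L := fun q : ℝ × (ℝ × V n) =>
      Omg (sg q.1) (DX F q.2)) ?_ ?_).clm_apply ((al_smooth h.smooth).comp contDiff_snd)
  · exact Omg_smooth (sg_smooth.comp contDiff_fst) ((DX_smooth h.smooth).comp contDiff_snd)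
  · intro q v hv
    exact Omg_inj (sg_nonneg _) (sg_le_one _) (h.nr _) v hv

theorem NRFam.Xf_eq (h : NRFam F) (s : ℝ) (z : ℝ × V n) (w : V n) :
    Omg (sg s) (DX F z) (Xf F (s, z)) w = - (deriv sg s * al F z w) := by
  unfold Xf
  simp only
  rw [map_neg, map_smul, inverse_apply' finrank_dual' _
    (fun v hv => Omg_inj (sg_nonneg _) (sg_le_one _) (h.nr _) v hv)]
  simp

/-- translation invariance of the data -/
theorem DX_add {F : ℝ × V n → V n} (hF : ContDiff ℝ ∞ F) {t t' : ℝ} {u : V n}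
    (h : ∀ x, F (t', x + u) = F (t, x) + u) (x : V n) : DX F (t', x + u) = DX F (t, x) := by
  have h1 := DX_eq hF t' (x + u)
  have h2 : HasFDerivAt (fun y => F (t', y + u)) (DX F (t', x + u)) x :=
    (hasFDerivAt_comp_add_right (f := fun y => F (t', y)) (a := u)).2 h1
  have h3 : (fun y => F (t', y + u)) = fun y => F (t, y) + u := funext h
  rw [h3] at h2
  exact h2.unique ((DX_eq hF t x).add_const u)

theorem al_add {F : ℝ × V n → V n} (hF : ContDiff ℝ ∞ F) {t t' : ℝ} {u : V n}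
    (h : ∀ x, F (t', x + u) = F (t, x) + u) (x : V n) : al F (t', x + u) = al F (t, x) := by
  unfold al
  rw [DX_add hF h, h]
  simp only
  rw [add_sub_add_right_eq_sub]

theorem Xf_add {F : ℝ × V n → V n} (hF : ContDiff ℝ ∞ F) {t t' : ℝ} {u : V n}
    (h : ∀ x, F (t', x + u) = F (t, x) + u) (s : ℝ) (a : ℤ) (x : V n) :
    Xf F (s + a * 2, (t', x + u)) = Xf F (s, (t, x)) := by
  unfold Xf
  simp only
  rw [DX_add hF h, al_add hF h, sg_per_int, dsg_per_int]

/-- the periods of the Moser vector field -/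
def Prd (n : ℕ) : Set (ℝ × (ℝ × V n)) :=
  {q | ∃ (a b : ℤ) (k : Fin n ⊕ Fin n → ℤ), q = ((a : ℝ) * 2, ((b : ℝ) * 2, lat k))}

/-- the fundamental domain -/
def Fnd (n : ℕ) : Set (ℝ × (ℝ × V n)) := Icc 0 2 ×ˢ (Icc 0 2 ×ˢ Icc 0 1)

theorem Fnd_compact : IsCompact (Fnd n) := isCompact_Icc.prod (isCompact_Icc.prod isCompact_Icc)

theorem exists_reduce (s : ℝ) : ∃ a : ℤ, s + a * 2 ∈ Icc (0 : ℝ) 2 := by
  refine ⟨-⌊s / 2⌋, ?_, ?_⟩
  · have := Int.floor_le (s / 2)
    push_cast
    linarith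
  · have := Int.lt_floor_add_one (s / 2)
    push_cast
    linarith

theorem exists_reduce' (p : ℝ × (ℝ × V n)) : ∃ q ∈ Prd n, p + q ∈ Fnd n := by
  obtain ⟨s, t, x⟩ := p
  obtain ⟨a, ha⟩ := exists_reduce s
  obtain ⟨b, hb⟩ := exists_reduce t
  obtain ⟨k, hk⟩ := exists_frac x
  exact ⟨((a : ℝ) * 2, ((b : ℝ) * 2, lat k)), ⟨a, b, k, rfl⟩, ⟨ha, hb, hk⟩⟩

theorem NRFam.Xf_per (h : NRFam F) : ∀ q ∈ Prd n, ∀ p, Xf F (p + q) = Xf F p := by
  rintro _ ⟨a, b, k, rfl⟩ ⟨s, t, x⟩
  exact Xf_add h.smooth (t := t) (t' := t + b * 2) (u := lat k) (fun x => by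
    rw [h.per_int, h.equi]) s a x

/-! ### The flow -/

/-- the flow of the Moser vector field -/
structure IsMoser (F : ℝ × V n → V n) (Φ : ℝ → ℝ × V n → V n) : Prop where
  smooth : ContDiff ℝ ∞ (fun q : ℝ × (ℝ × V n) => Φ q.1 q.2)
  zero : ∀ t x, Φ t (0, x) = x
  deriv : ∀ t s x, HasDerivAt (fun s => Φ t (s, x)) (Xf F (s, (t, Φ t (s, x)))) s

theorem NRFam.exists_moser (h : NRFam F) : ∃ Φ : ℝ → ℝ × V n → V n, IsMoser F Φ := by
  set Y : ℝ × (ℝ × V n) → ℝ × V n := fun q => (0, Xf F q) with hY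
  have hYs : ContDiff ℝ ∞ Y := contDiff_const.prodMk h.Xf_smooth
  have hYp : ∀ q ∈ Prd n, ∀ p, Y (p + q) = Y p := by
    intro q hq p
    simp only [hY, h.Xf_per q hq p]
  obtain ⟨K, hK⟩ := lipschitz_of_periods hYs Fnd_compact hYp exists_reduce'
  obtain ⟨M, hM⟩ := bdd_of_periods hYs.continuous Fnd_compact hYp exists_reduce'
  obtain ⟨Ψ, hΨ, hΨ0, hΨd⟩ := exists_flow_from_zero hYs hK hM
  have hfst : ∀ s t x, (Ψ s (t, x)).1 = t := by
    intro s t x
    have h1 : ∀ r, HasDerivAt (fun r => (Ψ r (t, x)).1) 0 r := by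
      intro r
      have h3 := (hΨd r (t, x))
      have h4 := (ContinuousLinearMap.fst ℝ ℝ (V n)).hasFDerivAt.comp_hasDerivAt r h3
      have h5 : (ContinuousLinearMap.fst ℝ ℝ (V n)) (Y (r, Ψ r (t, x))) = 0 := rfl
      rw [h5] at h4
      exact h4
    have h2 := is_const_of_deriv_eq_zero (fun r => (h1 r).differentiableAt)
      (fun r => (h1 r).deriv) s 0
    simp only [hΨ0] at h2
    exact h2
  have hpair : ∀ s t x, Ψ s (t, x) = (t, (Ψ s (t, x)).2) := fun s t x =>
    Prod.ext (hfst s t x) rfl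
  refine ⟨fun t q => (Ψ q.1 (t, q.2)).2, ?_, ?_, ?_⟩
  · exact contDiff_snd.comp (hΨ.comp ((contDiff_fst.comp contDiff_snd).prodMk
      (contDiff_fst.prodMk (contDiff_snd.comp contDiff_snd))))
  · intro t x
    simp [hΨ0]
  · intro t s x
    have h3 := (hΨd s (t, x))
    have h4 := (ContinuousLinearMap.snd ℝ ℝ (V n)).hasFDerivAt.comp_hasDerivAt s h3
    have h5 : (ContinuousLinearMap.snd ℝ ℝ (V n)) (Y (s, Ψ s (t, x))) =
        Xf F (s, (t, (Ψ s (t, x)).2)) := by
      rw [← hpair]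
      rfl
    rw [h5] at h4
    exact h4

/-- integral curves of the Moser vector field are unique -/
theorem NRFam.unique (h : NRFam F) (t : ℝ) {γ δ : ℝ → V n}
    (hγ : ∀ s, HasDerivAt γ (Xf F (s, (t, γ s))) s)
    (hδ : ∀ s, HasDerivAt δ (Xf F (s, (t, δ s))) s) (h0 : γ 0 = δ 0) : γ = δ := by
  obtain ⟨K, hK⟩ := lipschitz_of_periods h.Xf_smooth Fnd_compact h.Xf_per exists_reduce'
  refine ODE_solution_unique_univ (v := fun s x => Xf F (s, (t, x))) (s := fun _ => univ) (K := K)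
    (t₀ := 0) (fun s => ?_) (fun s => ⟨hγ s, mem_univ _⟩) (fun s => ⟨hδ s, mem_univ _⟩) h0
  refine LipschitzWith.lipschitzOnWith (LipschitzWith.of_dist_le_mul fun x y => ?_)
  refine (hK.dist_le_mul _ _).trans (le_of_eq ?_)
  congr 1
  rw [Prod.dist_eq, Prod.dist_eq]
  simp

/-- the flow commutes with the translations with which the family commutes -/
theorem NRFam.moser_add (h : NRFam F) {Φ : ℝ → ℝ × V n → V n} (hΦ : IsMoser F Φ) {t : ℝ}
    {u : V n} (hu : ∀ x, F (t, x + u) = F (t, x) + u) (s : ℝ) (x : V n) :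
    Φ t (s, x + u) = Φ t (s, x) + u := by
  have h1 := h.unique t (γ := fun s => Φ t (s, x + u)) (δ := fun s => Φ t (s, x) + u)
    (hΦ.deriv t · (x + u)) (fun s => by
      have h2 := (hΦ.deriv t s x).add_const u
      have h3 := Xf_add h.smooth hu s 0 (Φ t (s, x))
      simp only [Int.cast_zero, zero_mul, add_zero] at h3
      rw [h3]
      exact h2) (by simp only [hΦ.zero])
  exact congrFun h1 s

/-- the pulled back forms are constant along the Moser flow -/
theorem NRFam.moser_const (h : NRFam F) {Φ : ℝ → ℝ × V n → V n} (hΦ : IsMoser F Φ)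
    (t s : ℝ) (x v w : V n) :
    (1 - sg s) * om (dd (Φ t) (iv v) (s, x)) (dd (Φ t) (iv w) (s, x))
      + sg s * om (DX F (t, Φ t (s, x)) (dd (Φ t) (iv v) (s, x)))
        (DX F (t, Φ t (s, x)) (dd (Φ t) (iv w) (s, x))) = om v w := by
  have hF := h.smooth
  have hΦt : ContDiff ℝ ∞ (Φ t) := hΦ.smooth.comp (contDiff_const.prodMk contDiff_id)
  set f : ℝ × V n → V n := fun p => F (t, Φ t p) with hf
  have hfs : ContDiff ℝ ∞ f := hF.comp (contDiff_const.prodMk hΦt)
  have hddf : ∀ (b p : ℝ × V n), dd f b p = DX F (t, Φ t p) (dd (Φ t) b p) := by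
    intro b p
    have h1 : HasFDerivAt (fun y => F (t, y)) (DX F (t, Φ t p)) (Φ t p) := DX_eq hF _ _
    have h2 : HasFDerivAt (Φ t) (fderiv ℝ (Φ t) p) p :=
      ((hΦt.differentiable (by simp)) _).hasFDerivAt
    have h3 := h1.comp p h2
    have h4 : HasFDerivAt f ((DX F (t, Φ t p)).comp (fderiv ℝ (Φ t) p)) p := h3
    unfold dd
    rw [h4.fderiv]
    rfl
  have hdde : ∀ p : ℝ × V n, dd (Φ t) (ee (V n)) p = Xf F (p.1, (t, Φ t p)) := by
    intro p
    have h1 : HasDerivAt (fun r : ℝ => ((r, p.2) : ℝ × V n)) (ee (V n)) p.1 :=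
      (hasDerivAt_id p.1).prodMk (hasDerivAt_const p.1 p.2)
    have h2 : HasFDerivAt (Φ t) (fderiv ℝ (Φ t) (p.1, p.2)) (p.1, p.2) :=
      ((hΦt.differentiable (by simp)) _).hasFDerivAt
    have h3 := h2.comp_hasDerivAt p.1 h1
    exact h3.unique (hΦ.deriv t p.1 p.2)
  set g : ℝ × V n → ℝ := fun p => 1 / 2 * omW n (Φ t p) (f p) with hg
  have hgs : ContDiff ℝ ∞ g := contDiff_const.mul (smooth_pair (omW n) hΦt hfs)
  have hddg : ∀ (w : V n) (p : ℝ × V n), dd g (iv w) p =
      1 / 2 * (om (Φ t p) (dd f (iv w) p) + om (dd (Φ t) (iv w) p) (f p)) := by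
    intro w p
    unfold dd
    have h1 := fd_pair (omW n) (g := Φ t) (h := f) (p := p)
      ((hΦt.differentiable (by simp)) p) ((hfs.differentiable (by simp)) p) (iv w)
    have h2 := fd_mul (c := fun _ => (1 / 2 : ℝ)) (g := fun q => omW n (Φ t q) (f q)) (p := p)
      (differentiableAt_const _)
      (((smooth_pair (omW n) hΦt hfs).differentiable (by simp)) p) (iv w)
    rw [hg, h2, h1]
    simp [omW_apply]
  have hc := conserve2 (omW n) omW_anti sg sg_smooth (Φ t) f hΦt hfs g hgs (fun p w => ?_) x v w s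
  · rw [hddf, hddf] at hc
    simp only [omW_apply] at hc
    rw [hc, sg_zero]
    have h1 : ∀ u : V n, dd (Φ t) (iv u) (0, x) = u := by
      intro u
      have h2 : HasFDerivAt (fun y : V n => Φ t (0, y))
          ((fderiv ℝ (Φ t) (0, x)).comp (ContinuousLinearMap.inr ℝ ℝ (V n))) x := by
        have h3 : HasFDerivAt (Φ t) (fderiv ℝ (Φ t) (0, x)) (0, x) :=
          ((hΦt.differentiable (by simp)) _).hasFDerivAt
        exact h3.comp x (hasFDerivAt_prodMk_right 0 x)
      have h5 : (fun y : V n => Φ t (0, y)) = id := funext (hΦ.zero t)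
      rw [h5] at h2
      have h6 := h2.unique (hasFDerivAt_id x)
      exact DFunLike.congr_fun h6 u
    rw [h1, h1]
    ring
  · rw [hddg, hddf, hddf, hdde]
    have h1 := h.Xf_eq p.1 (t, Φ t p) (dd (Φ t) (iv w) p)
    rw [Omg_apply, al_apply] at h1
    have h2 : F (t, Φ t p) = f p := rfl
    rw [h2, om_add_right, om_sub_left, om_sub_left] at h1
    simp only [omW_apply] at h1 ⊢
    rw [om_anti (dd (Φ t) (iv w) p) (f p)]
    linear_combination h1

end Pool.Agent.Run7.h233
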