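import Pool.Agent.Run7.h233.Moser

/-!
# Paths of maps which never reverse the symplectic form
-/

set_option autoImplicit false

open Set Filter Topology
open scoped ContDiff NNReal

namespace Pool.Agent.Run7.h233

open Pool.Agent.Helper597_torsymp Pool.Agent.W5h49.EC

variable {n : ℕ} {F : ℝ × V n → V n}

/-- the differential of the composition with the Moser flow -/
theorem NRFam.comp_deriv (h : NRFam F) {Φ : ℝ → ℝ × V n → V n} (hΦ : IsMoser F Φ) (t s : ℝ)
    (x v : V n) : fderiv ℝ (fun y => F (t, Φ t (s, y))) x v =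
      DX F (t, Φ t (s, x)) (dd (Φ t) (iv v) (s, x)) := by
  have hΦt : ContDiff ℝ ∞ (Φ t) := hΦ.smooth.comp (contDiff_const.prodMk contDiff_id)
  have h1 : HasFDerivAt (fun y => F (t, y)) (DX F (t, Φ t (s, x))) (Φ t (s, x)) :=
    DX_eq h.smooth _ _
  have h2 : HasFDerivAt (fun y : V n => Φ t (s, y))
      ((fderiv ℝ (Φ t) (s, x)).comp (ContinuousLinearMap.inr ℝ ℝ (V n))) x := by
    have h3 : HasFDerivAt (Φ t) (fderiv ℝ (Φ t) (s, x)) (s, x) :=
      ((hΦt.differentiable (by simp)) _).hasFDerivAt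
    exact h3.comp x (hasFDerivAt_prodMk_right s x)
  have h3 := h1.comp x h2
  have h4 : HasFDerivAt (fun y => F (t, Φ t (s, y))) ((DX F (t, Φ t (s, x))).comp
    ((fderiv ℝ (Φ t) (s, x)).comp (ContinuousLinearMap.inr ℝ ℝ (V n)))) x := h3
  rw [h4.fderiv]
  rfl

theorem NRFam.moser_lat (h : NRFam F) {Φ : ℝ → ℝ × V n → V n} (hΦ : IsMoser F Φ) (t s : ℝ)
    (x : V n) (k : Fin n ⊕ Fin n → ℤ) : Φ t (s, x + lat k) = Φ t (s, x) + lat k :=
  h.moser_add hΦ (fun x => h.equi t x k) s x

/-- the leg at a time at which the family is symplectic -/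
theorem NRFam.leg_s (h : NRFam F) {Φ : ℝ → ℝ × V n → V n} (hΦ : IsMoser F Φ) {t : ℝ}
    (ht : IsTorusSymp 1 (fun x => F (t, x))) :
    SymplecticallyIsotopic 1 (fun x => F (t, x)) (fun x => F (t, Φ t (1, x))) := by
  have hsm : ContDiff ℝ ∞ (fun p : ℝ × V n => F (t, Φ t (p.1, p.2))) := by
    refine h.smooth.comp (contDiff_const.prodMk ?_)
    exact hΦ.smooth.comp (contDiff_const.prodMk (contDiff_fst.prodMk contDiff_snd))
  refine ⟨fun s x => F (t, Φ t (s, x)), hsm, funext fun x => by simp only [hΦ.zero], rfl,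
    fun s _ => ?_⟩
  refine isTorusSymp_of_family (A := 1) (G := fun s x => F (t, Φ t (s, x))) hsm
    (fun s x k => ?_) (fun s x u v => ?_) (t₀ := 0) ?_ s
  · rw [h.moser_lat hΦ, h.equi, Matrix.one_mulVec]
  · rw [h.comp_deriv hΦ, h.comp_deriv hΦ]
    have e2 : ∀ a b : V n, om (DX F (t, Φ t (s, x)) a) (DX F (t, Φ t (s, x)) b) = om a b := by
      intro a b
      have h1 := ht.symplectic (Φ t (s, x)) a b
      rwa [(DX_eq h.smooth t (Φ t (s, x))).fderiv] at h1
    have h1 := h.moser_const hΦ t s x u v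
    rw [e2] at h1 ⊢
    linarith
  · have : (fun x => F (t, Φ t (0, x))) = fun x => F (t, x) := funext fun x => by
      simp only [hΦ.zero]
    rw [this]
    exact ht.injective

/-- the leg at time `s = 1` of the Moser flow -/
theorem NRFam.leg_t (h : NRFam F) {Φ : ℝ → ℝ × V n → V n} (hΦ : IsMoser F Φ)
    (h0 : IsTorusSymp 1 (fun x => F (0, x))) :
    SymplecticallyIsotopic 1 (fun x => F (0, Φ 0 (1, x))) (fun x => F (1, Φ 1 (1, x))) := by
  have hsm : ContDiff ℝ ∞ (fun p : ℝ × V n => F (p.1, Φ p.1 (1, p.2))) := by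
    refine h.smooth.comp (contDiff_fst.prodMk ?_)
    exact hΦ.smooth.comp (contDiff_fst.prodMk (contDiff_const.prodMk contDiff_snd))
  refine ⟨fun t x => F (t, Φ t (1, x)), hsm, rfl, rfl, fun s _ => ?_⟩
  refine isTorusSymp_of_family (A := 1) (G := fun t x => F (t, Φ t (1, x))) hsm
    (fun t x k => ?_) (fun t x u v => ?_) (t₀ := 0) ?_ s
  · rw [h.moser_lat hΦ, h.equi, Matrix.one_mulVec]
  · rw [h.comp_deriv hΦ, h.comp_deriv hΦ]
    have h1 := h.moser_const hΦ t 1 x u v
    rw [sg_one] at h1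
    linarith
  · exact (h.leg_s hΦ h0).right.injective

/-- **The path theorem.** Let `F t`, `t ∈ [0, 1]`, be a smooth family of equivariant maps none of
which reverses the form at any point, with `F 0` symplectic. Then `F 0` is symplectically isotopic
to a map `G` which commutes with all the translations with which `F 1` commutes; and `G` is
symplectically isotopic to `F 1` if `F 1` is symplectic. -/
theorem exists_path {F : ℝ × V n → V n} (hF : ContDiff ℝ ∞ F)
    (he : ∀ t ∈ Icc (0 : ℝ) 1, ∀ x (k : Fin n ⊕ Fin n → ℤ), F (t, x + lat k) = F (t, x) + lat k)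
    (hnr : ∀ t ∈ Icc (0 : ℝ) 1, ∀ x, NR (fderiv ℝ (fun y => F (t, y)) x))
    (h0 : IsTorusSymp 1 (fun x => F (0, x))) :
    ∃ G : V n → V n, SymplecticallyIsotopic 1 (fun x => F (0, x)) G ∧
      (∀ u, (∀ x, F (1, x + u) = F (1, x) + u) → ∀ x, G (x + u) = G x + u) ∧
      (IsTorusSymp 1 (fun x => F (1, x)) → SymplecticallyIsotopic 1 (fun x => F (1, x)) G) := by
  set F' : ℝ × V n → V n := fun z => F (sg z.1, z.2) with hF'
  have hF's : ContDiff ℝ ∞ F' := hF.comp ((sg_smooth.comp contDiff_fst).prodMk contDiff_snd)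
  have h : NRFam F' := by
    refine ⟨hF's, fun t x => ?_, fun t x k => he _ (sg_mem t) x k, fun z => ?_⟩
    · simp only [hF', sg_per]
    · obtain ⟨t, x⟩ := z
      have h1 := hnr (sg t) (sg_mem t) x
      have h2 := (DX_eq hF's t x).fderiv
      have h3 : (fun y => F' (t, y)) = fun y => F (sg t, y) := rfl
      rw [h3] at h2
      rwa [h2] at h1
  have e0 : ∀ x, F' (0, x) = F (0, x) := fun x => by simp only [hF', sg_zero]
  have e1 : ∀ x, F' (1, x) = F (1, x) := fun x => by simp only [hF', sg_one]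
  obtain ⟨Φ, hΦ⟩ := h.exists_moser
  have e0' : (fun x => F' (0, x)) = fun x => F (0, x) := funext e0
  have e1' : (fun x => F' (1, x)) = fun x => F (1, x) := funext e1
  have h0' : IsTorusSymp 1 (fun x => F' (0, x)) := by rwa [e0']
  refine ⟨fun x => F' (1, Φ 1 (1, x)), ?_, fun u hu x => ?_, fun h1 => ?_⟩
  · rw [← e0']
    exact (h.leg_s hΦ h0').trans (h.leg_t hΦ h0')
  · have hu' : ∀ x, F' (1, x + u) = F' (1, x) + u := fun x => by rw [e1, e1, hu]
    simp only
    rw [h.moser_add hΦ hu', hu']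
  · rw [← e1'] at h1 ⊢
    exact h.leg_s hΦ h1

end Pool.Agent.Run7.h233
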