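import Pool.Agent.Run7.h233.Path
import Pool.Agent.Helper597_torsymp.Line

/-!
# The straight line between two symplectomorphisms
-/

set_option autoImplicit false

open Set Filter Topology
open scoped ContDiff NNReal

namespace Pool.Agent.Run7.h233

open Pool.Agent.Helper597_torsymp

variable {n : ℕ}

/-- a symplectic map of the vector space, as a linear equivalence -/
theorem exists_lequiv {P : V n →L[ℝ] V n} (hP : ∀ u v, om (P u) (P v) = om u v) :
    ∃ e : V n ≃ₗ[ℝ] V n, ∀ v, e v = P v := by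
  have hi : Function.Injective (P : V n →ₗ[ℝ] V n) := by
    rw [injective_iff_map_eq_zero]
    intro v hv
    refine om_nondeg v fun w => ?_
    have h1 : P v = 0 := hv
    rw [← hP, h1, om_zero_left]
  exact ⟨LinearEquiv.ofInjectiveEndo _ hi, fun v => rfl⟩

/-- **Linear algebra of the segment.** If `(1 - t) P + t Q` reverses the form, with `P` and `Q`
symplectic and `0 ≤ t ≤ 1`, then `Q u = -c P u` for some `u ≠ 0` and `c > 0`. -/
theorem segment_NR {P Q : V n →L[ℝ] V n} (hP : ∀ u v, om (P u) (P v) = om u v)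
    (hQ : ∀ u v, om (Q u) (Q v) = om u v)
    (h : ∀ v : V n, v ≠ 0 → ∀ c : ℝ, 0 < c → Q v ≠ -(c • P v)) {t : ℝ} (ht : t ∈ Icc (0 : ℝ) 1) :
    NR fun v => (1 - t) • P v + t • Q v := by
  obtain ⟨e, he⟩ := exists_lequiv hP
  obtain ⟨ht0, ht1⟩ := ht
  intro v hv c hc
  by_contra hcon
  push Not at hcon
  -- the operator `X = P⁻¹ Q`
  obtain ⟨eQ, heQ⟩ := exists_lequiv hQ
  set X : V n ≃ₗ[ℝ] V n := eQ.trans e.symm with hX
  have hPX : ∀ w, P (X w) = Q w := by
    intro w
    rw [← he, ← heQ, hX]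
    simp
  have hXs : ∀ u w, om (X u) (X w) = om u w := by
    intro u w
    rw [← hP, hPX, hPX, hQ]
  have hXi : ∀ u w, om (X.symm u) w = om u (X w) := by
    intro u w
    rw [← hXs, X.apply_symm_apply]
  have h1 : ∀ w, om (((1 - t) ^ 2 + t ^ 2 + c) • v + (t * (1 - t)) • (X v + X.symm v)) w = 0 := by
    intro w
    have h2 := hcon w
    simp only [om_add_left, om_add_right, om_smul_left, om_smul_right] at h2 ⊢
    rw [hP, hQ] at h2
    have h3 : om (P v) (Q w) = om (X.symm v) w := by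
      rw [← hPX, hP, hXi]
    have h4 : om (Q v) (P w) = om (X v) w := by
      rw [← hPX, hP]
    rw [h3, h4] at h2
    linear_combination h2
  have h2 := om_nondeg _ h1
  by_cases hb : t * (1 - t) = 0
  · rw [hb, zero_smul, add_zero] at h2
    rcases smul_eq_zero.1 h2 with h3 | h3
    · nlinarith [sq_nonneg (1 - t), sq_nonneg t, sq_nonneg (1 - 2 * t)]
    · exact hv h3
  · have hbp : 0 < t * (1 - t) := lt_of_le_of_ne (mul_nonneg ht0 (by linarith)) (Ne.symm hb)
    set b : ℝ := t * (1 - t) with hbdef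
    set μ : ℝ := ((1 - t) ^ 2 + t ^ 2 + c) / b with hμ
    have hμ2 : 2 ≤ μ := by
      rw [hμ, le_div_iff₀ hbp, hbdef]
      nlinarith [sq_nonneg (1 - 2 * t)]
    have h3 : X v + X.symm v = -(μ • v) := by
      have h4 : b • (X v + X.symm v) = b • (-(μ • v)) := by
        rw [smul_neg, smul_smul, hμ, mul_div_cancel₀ _ hb]
        rw [add_comm] at h2
        exact eq_neg_of_add_eq_zero_left h2
      exact smul_right_injective _ hb h4
    -- the two negative roots of `z² + μ z + 1`
    set δ : ℝ := Real.sqrt (μ ^ 2 - 4) with hδ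
    have hδ2 : δ ^ 2 = μ ^ 2 - 4 := Real.sq_sqrt (by nlinarith)
    have hδ0 : 0 ≤ δ := Real.sqrt_nonneg _
    have hδμ : δ < μ := by
      by_contra hc'
      push Not at hc'
      nlinarith
    have h5 : X (X v) = -(μ • X v) - v := by
      have h6 := congrArg X h3
      rw [map_add, X.apply_symm_apply, map_neg, map_smul] at h6
      exact eq_sub_of_add_eq h6
    have hQe : ∀ u : V n, ∀ c' : ℝ, X u = -(c' • u) → Q u = -(c' • P u) := by
      intro u c' hu
      rw [← hPX, hu, map_neg, map_smul]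
    have hr1 : 0 < (μ - δ) / 2 := by linarith
    have hr2 : 0 < (μ + δ) / 2 := by linarith
    by_cases hu : X v + ((μ - δ) / 2) • v = 0
    · exact h v hv _ hr1 (hQe v _ (eq_neg_of_add_eq_zero_left hu))
    · refine h _ hu _ hr2 (hQe _ _ ?_)
      rw [map_add, map_smul, h5, smul_add, smul_smul]
      have h7 : (μ + δ) / 2 * ((μ - δ) / 2) = 1 := by nlinarith
      rw [h7, one_smul]
      module

/-- **Theorem.** Two symplectomorphisms of the torus with the same action on homology are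
symplectically isotopic if their derivatives are not opposite in any direction. -/
theorem isotopic_of_no_opposite {A : Matrix (Fin n ⊕ Fin n) (Fin n ⊕ Fin n) ℤ} {ψ₀ ψ₁ : V n → V n}
    (h₀ : IsTorusSymp A ψ₀) (h₁ : IsTorusSymp A ψ₁)
    (h : ∀ x v : V n, v ≠ 0 → ∀ c : ℝ, 0 < c → fderiv ℝ ψ₁ x v ≠ -(c • fderiv ℝ ψ₀ x v)) :
    SymplecticallyIsotopic A ψ₀ ψ₁ := by
  -- reduction to trivial action on the lattice
  obtain ⟨B, hAB, hBA⟩ := exists_inv_matrix h₀.mem
  have hB : B ∈ Matrix.symplecticGroup (Fin n) ℤ := mem_of_mul_eq_one h₀.mem hAB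
  have k₀ := (isTorusSymp_lin hB).comp h₀
  have k₁ := (isTorusSymp_lin hB).comp h₁
  rw [hBA] at k₀ k₁
  set φ₀ : V n → V n := fun x => lin B (ψ₀ x) with hφ₀
  set φ₁ : V n → V n := fun x => lin B (ψ₁ x) with hφ₁
  have d₀ : ∀ x v, fderiv ℝ φ₀ x v = lin B (fderiv ℝ ψ₀ x v) := by
    intro x v
    have : HasFDerivAt φ₀ ((lin B).comp (fderiv ℝ ψ₀ x)) x :=
      (lin B).hasFDerivAt.comp x (h₀.diff x).hasFDerivAt
    rw [this.fderiv]
    rfl
  have d₁ : ∀ x v, fderiv ℝ φ₁ x v = lin B (fderiv ℝ ψ₁ x v) := by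
    intro x v
    have : HasFDerivAt φ₁ ((lin B).comp (fderiv ℝ ψ₁ x)) x :=
      (lin B).hasFDerivAt.comp x (h₁.diff x).hasFDerivAt
    rw [this.fderiv]
    rfl
  have hinj : Function.Injective (lin B : V n → V n) := by
    intro u v huv
    have := congrArg (lin A) huv
    rwa [← lin_mul, ← lin_mul, hAB, lin_one, lin_one] at this
  have hk : ∀ x v : V n, v ≠ 0 → ∀ c : ℝ, 0 < c → fderiv ℝ φ₁ x v ≠ -(c • fderiv ℝ φ₀ x v) := by
    intro x v hv c hc hcon
    rw [d₀, d₁, ← map_smul, ← map_neg] at hcon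
    exact h x v hv c hc (hinj hcon)
  have hiso : SymplecticallyIsotopic 1 φ₀ φ₁ := by
    set F : ℝ × V n → V n := fun z => (1 - z.1) • φ₀ z.2 + z.1 • φ₁ z.2 with hF
    have hFs : ContDiff ℝ ∞ F :=
      (smul_smooth' (contDiff_const.sub contDiff_fst) (k₀.smooth.comp contDiff_snd)).add
        (smul_smooth' contDiff_fst (k₁.smooth.comp contDiff_snd))
    have e0 : (fun x => F (0, x)) = φ₀ := by
      funext x
      simp [hF]
    have e1 : (fun x => F (1, x)) = φ₁ := by
      funext x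
      simp [hF]
    have he : ∀ t ∈ Icc (0 : ℝ) 1, ∀ x (k : Fin n ⊕ Fin n → ℤ),
        F (t, x + lat k) = F (t, x) + lat k := by
      intro t _ x k
      simp only [hF]
      rw [k₀.equivariant, k₁.equivariant, Matrix.one_mulVec]
      simp only [smul_add, sub_smul, one_smul]
      abel
    have hnr : ∀ t ∈ Icc (0 : ℝ) 1, ∀ x, NR (fderiv ℝ (fun y => F (t, y)) x) := by
      intro t ht x
      have hd : HasFDerivAt (fun y => F (t, y))
          ((1 - t) • fderiv ℝ φ₀ x + t • fderiv ℝ φ₁ x) x :=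
        ((k₀.diff x).hasFDerivAt.const_smul (1 - t)).add ((k₁.diff x).hasFDerivAt.const_smul t)
      rw [hd.fderiv]
      exact segment_NR (P := fderiv ℝ φ₀ x) (Q := fderiv ℝ φ₁ x) (k₀.symplectic x)
        (k₁.symplectic x) (hk x) ht
    obtain ⟨G, hG0, -, hG1⟩ := exists_path (F := F) hFs he hnr (by rw [e0]; exact k₀)
    rw [e0] at hG0
    rw [e1] at hG1
    exact hG0.trans (hG1 k₁).symm
  have h5 := hiso.comp_left (isTorusSymp_lin h₀.mem)
  rw [Matrix.mul_one] at h5
  have e1 : (fun x => lin A (φ₀ x)) = ψ₀ := by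
    funext x
    rw [hφ₀]
    simp only
    rw [← lin_mul, hAB, lin_one]
  have e2 : (fun x => lin A (φ₁ x)) = ψ₁ := by
    funext x
    rw [hφ₁]
    simp only
    rw [← lin_mul, hAB, lin_one]
  simp only [e1, e2] at h5
  exact h5

end Pool.Agent.Run7.h233
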