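import Pool.Agent.Run7.h233.Block2

/-!
# The splitting criterion in all dimensions
-/

set_option autoImplicit false

open Set Filter Topology
open scoped ContDiff NNReal

namespace Pool.Agent.Run7.h233

open Pool.Agent.Helper597_torsymp

variable {n : ℕ}

section

variable {π : V n →ₗ[ℝ] V n} (hπ : ∀ v, π (π v) = π v) (hs : ∀ u v, om (π u) v = om u (π v))
  {X Y : V n →ₗ[ℝ] V n} (hX : ∀ u v, om (X u) (X v) = om u v) (hXY : ∀ v, X (Y v) = v)

include hX hXY in
theorem adj1 (u v : V n) : om (Y u) v = om u (X v) := by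
  rw [← hX, hXY]

include hX hXY in
theorem adj2 (u v : V n) : om u (Y v) = om (X u) v := by
  rw [← hX, hXY]

include hπ hs hX hXY in
/-- first form of the hypothesis -/
theorem BlockNR.one (h : BlockNR π X) {μ : ℝ} (hμ : 0 ≤ μ) {c : ℝ} (hc : 0 ≤ c) {v : V n}
    (hv : π v = v) (he : π (Y (π (X v) + μ • v)) + μ • (π (X v) + μ • v) = -(c • v)) : v = 0 := by
  by_contra hv0
  obtain ⟨w, hw, hne⟩ := h μ hμ c hc v hv hv0
  apply hne
  have h1 : om (π (Y (π (X v) + μ • v)) + μ • (π (X v) + μ • v)) w = -(c * om v w) := by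
    rw [he, om_neg_left, om_smul_left]
  rw [om_add_left, om_smul_left, hs, hw, adj1 hX hXY] at h1
  have hp : π (π (X v) + μ • v) = π (X v) + μ • v := by rw [map_add, hπ, map_smul, hv]
  have h2 : om (π (X v) + μ • v) (X w) = om (π (X v) + μ • v) (π (X w)) := by
    rw [← hs, hp]
  rw [h2] at h1
  rw [om_add_right, om_smul_right]
  linarith

include hπ hs hX hXY in
/-- the adjoint block is injective -/
theorem BlockNR.inj (h : BlockNR π X) {μ : ℝ} (hμ : 0 ≤ μ) {v : V n}
    (hv : π v = v) (he : π (Y v) + μ • v = 0) : v = 0 := by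
  set T : V n →ₗ[ℝ] V n := (π ∘ₗ X + μ • LinearMap.id) ∘ₗ π + (LinearMap.id - π) with hT
  have hTe : ∀ v, T v = π (X (π v)) + μ • π v + (v - π v) := fun v => rfl
  have hinj : Function.Injective T := by
    rw [injective_iff_map_eq_zero]
    intro w hw
    rw [hTe] at hw
    have h1 := congrArg π hw
    rw [map_add, map_add, map_sub, map_smul, map_zero, hπ, hπ, sub_self, add_zero] at h1
    have h2 : w - π w = 0 := by
      rw [h1, zero_add] at hw
      exact hw
    have h3 : π w = w := (sub_eq_zero.1 h2).symm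
    rw [h3] at h1
    refine h.one hπ hs hX hXY hμ le_rfl h3 ?_
    rw [h1]
    simp
  have hsurj : Function.Surjective T := LinearMap.injective_iff_surjective.1 hinj
  refine om_nondeg v fun z => ?_
  obtain ⟨w, rfl⟩ := hsurj z
  rw [hTe, om_add_right, om_add_right, om_sub_right, om_smul_right, ← hs v w, hv, sub_self,
    add_zero, ← hs, hv]
  have h1 : om (π (Y v) + μ • v) (π w) = 0 := by rw [he, om_zero_left]
  rw [om_add_left, om_smul_left, hs, hπ, adj1 hX hXY, ← hs v w, hv] at h1
  exact h1

include hπ hs hX hXY in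
/-- second form of the hypothesis -/
theorem BlockNR.two (h : BlockNR π X) {μ : ℝ} (hμ : 0 ≤ μ) {c : ℝ} (hc : 0 ≤ c) {v : V n}
    (hv : π v = v) (he : π (X (π (Y v) + μ • v)) + μ • (π (Y v) + μ • v) = -(c • v)) : v = 0 := by
  set η := π (Y v) + μ • v with hη
  have hπη : π η = η := by rw [hη, map_add, hπ, map_smul, hv]
  have h1 : η = 0 := by
    refine h.one hπ hs hX hXY hμ hc hπη ?_
    rw [he]
    rw [map_neg, map_neg, map_smul, map_smul]
    rw [hη]
    module
  exact h.inj hπ hs hX hXY hμ hv h1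

include hπ hs hX hXY in
/-- **The splitting lemma.** -/
theorem split_NR (h1 : ∀ μ : ℝ, 0 ≤ μ → ∀ v, π v = v → π (X v) + μ • v = 0 → v = 0)
    (h2 : ∀ μ : ℝ, 0 ≤ μ → ∀ c : ℝ, 0 ≤ c → ∀ v, π v = v →
      π (X (π (Y v) + μ • v)) + μ • (π (Y v) + μ • v) = -(c • v) → v = 0)
    {t : ℝ} (ht : t ∈ Icc (0 : ℝ) 1) : NR fun v => v + t • π (X v - v) := by
  obtain ⟨ht0, ht1⟩ := ht
  intro v hv c hc
  by_contra hcon
  push Not at hcon
  set y : V n := v + t • π (X v - v) with hy
  have hc1 : (1 + c : ℝ) ≠ 0 := by positivity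
  rcases eq_or_lt_of_le ht0 with h0 | h0
  · apply hv
    refine om_nondeg v fun w => ?_
    have h3 := hcon w
    rw [hy, ← h0] at h3
    simp only [zero_smul, add_zero] at h3
    have h4 : (1 + c) * om v w = 0 := by linarith
    exact (mul_eq_zero.1 h4).resolve_left hc1
  set ξ := π y with hξ
  have hπξ : π ξ = ξ := hπ y
  have I : y + t • (Y ξ - ξ) = -(c • v) := by
    have h3 : y + t • (Y ξ - ξ) + c • v = 0 := by
      refine om_nondeg _ fun w => ?_
      have h4 := hcon w
      rw [om_add_right, om_smul_right, ← hs, om_sub_right] at h4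
      rw [om_add_left, om_add_left, om_smul_left, om_smul_left, om_sub_left, adj1 hX hXY]
      linarith
    exact eq_neg_of_add_eq_zero_left h3
  have II : π ((X v : V n) - v) = π (X v) - π v := map_sub _ _ _
  have e2 : ξ + t • (π (Y ξ) - ξ) = -(c • π v) := by
    have h3 := congrArg π I
    rw [map_add, map_smul, map_sub, map_neg, map_smul, hπξ] at h3
    exact h3
  have e1 : (1 + c) • (v - π v) = -(t • (Y ξ - π (Y ξ))) := by
    have h3 : y - ξ = v - π v := by
      rw [hξ, hy, map_add, map_smul, hπ]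
      module
    linear_combination (norm := module) I - e2 - h3
  have e3 : ξ = π v + t • (π (X v) - π v) := by
    rw [hξ, hy, map_add, map_smul, hπ, II]
  have e3' : (1 + c) • π (X (v - π v)) = -(t • (ξ - π (X (π (Y ξ))))) := by
    have h3 := congrArg (fun z => π (X z)) e1
    simp only [map_smul, map_neg] at h3
    rw [map_sub X (Y ξ), hXY, map_sub π ξ, hπξ] at h3
    exact h3
  have hsplit : π (X v) = π (X (π v)) + π (X (v - π v)) := by
    rw [← map_add, ← map_add, add_sub_cancel]
  have e4 : (1 + c + t ^ 2) • ξ - t ^ 2 • π (X (π (Y ξ))) =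
      (1 + c) • ((1 - t) • π v + t • π (X (π v))) := by
    rw [hsplit] at e3
    linear_combination (norm := module) (1 + c) • e3 + t • e3'
  have e5 : (1 - t) • ξ + t • π (Y ξ) = -(c • π v) := by
    linear_combination (norm := module) e2
  have e6 : (1 - t) • π (X ξ) + t • π (X (π (Y ξ))) = -(c • π (X (π v))) := by
    have h3 := congrArg (fun z => π (X z)) e5
    simp only [map_add, map_smul, map_neg] at h3
    exact h3
  set μ : ℝ := (1 + c) * (1 - t) / t with hμ
  have hμ0 : 0 ≤ μ := div_nonneg (mul_nonneg (by linarith) (by linarith)) ht0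
  have htμ : t * μ = (1 + c) * (1 - t) := by
    rw [hμ]
    field_simp
  set d : ℝ := c * ((1 + c) * (2 - t) + t) / t with hd
  have hd0 : 0 ≤ d := div_nonneg (mul_nonneg hc (by nlinarith)) ht0
  have htd : t * d = c * ((1 + c) * (2 - t) + t) := by
    rw [hd]
    field_simp
  have hξ0 : ξ = 0 := by
    refine h2 μ hμ0 d hd0 ξ hπξ ?_
    have h3 : (t * t) • (π (X (π (Y ξ) + μ • ξ)) + μ • (π (Y ξ) + μ • ξ)) =
        (t * t) • (-(d • ξ)) := by
      rw [map_add X, map_smul X, map_add π, map_smul π]
      have h4 : (t * t) • (π (X (π (Y ξ))) + μ • π (X ξ) + μ • (π (Y ξ) + μ • ξ)) =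
          (t * t) • π (X (π (Y ξ))) + (t * (t * μ)) • π (X ξ) +
            ((t * (t * μ)) • π (Y ξ) + ((t * μ) * (t * μ)) • ξ) := by
        module
      have h5 : (t * t) • (-(d • ξ)) = -((t * (t * d)) • ξ) := by module
      rw [h4, h5, htμ, htd]
      linear_combination (norm := module) c • e4 + ((1 + c) * (1 - t)) • e5 + ((1 + c) * t) • e6
    have h6 : (t * t) ≠ 0 := (mul_pos h0 h0).ne'
    exact smul_right_injective _ h6 h3
  have hρ : v = π v := by
    rw [hξ0, map_zero, map_zero, sub_zero, smul_zero, neg_zero] at e1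
    exact sub_eq_zero.1 ((smul_eq_zero.1 e1).resolve_left hc1)
  rw [hξ0] at e4
  simp only [map_zero, smul_zero, sub_zero] at e4
  have e7 := (smul_eq_zero.1 e4.symm).resolve_left hc1
  rw [← hρ] at e7
  apply hv
  refine h1 ((1 - t) / t) (div_nonneg (by linarith) ht0) v hρ.symm ?_
  have h8 : t • (π (X v) + ((1 - t) / t) • v) = 0 := by
    rw [smul_add, smul_smul, mul_div_cancel₀ _ h0.ne', add_comm]
    exact e7
  exact (smul_eq_zero.1 h8).resolve_left h0.ne'

end

/-- **The splitting criterion.** Let `ℝ^{2n} = P ⊕ Q` with symplectically orthogonal subspaces, the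
image and the kernel of `π`. A symplectomorphism `ψ` of the torus `T^{2n}`, acting trivially on
homology, is symplectically isotopic to the identity if the operators `a + μ` of `P` and `e + μ`
of `Q`, for `μ ≥ 0` and for the diagonal blocks `a` and `e` of the derivatives of `ψ`, never
reverse the form. -/
theorem isotopic_of_splitting {ψ : V n → V n} (hψ : IsTorusSymp 1 ψ) (π : V n →ₗ[ℝ] V n)
    (hπ : ∀ v, π (π v) = π v) (hs : ∀ u v, om (π u) v = om u (π v))
    (ha : ∀ x, BlockNR π (fderiv ℝ ψ x)) (hb : ∀ x, BlockNR (LinearMap.id - π) (fderiv ℝ ψ x)) :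
    SymplecticallyIsotopic 1 id ψ := by
  set ρ : V n →ₗ[ℝ] V n := LinearMap.id - π with hρdef
  have hρe : ∀ v, ρ v = v - π v := fun v => rfl
  have hρ : ∀ v, ρ (ρ v) = ρ v := by
    intro v
    rw [hρe, hρe, map_sub, hπ, sub_self, sub_zero]
  have hsρ : ∀ u v, om (ρ u) v = om u (ρ v) := by
    intro u v
    rw [hρe, hρe, om_sub_left, om_sub_right, hs]
  set a : ℝ → ℝ := fun t => Real.smoothTransition (2 * t) with hadef
  set b : ℝ → ℝ := fun t => Real.smoothTransition (2 * t - 1) with hbdef
  have has : ContDiff ℝ ∞ a := Real.smoothTransition.contDiff.comp (contDiff_const.mul contDiff_id)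
  have hbs : ContDiff ℝ ∞ b :=
    Real.smoothTransition.contDiff.comp ((contDiff_const.mul contDiff_id).sub contDiff_const)
  set Pc : V n →L[ℝ] V n := LinearMap.toContinuousLinearMap π with hPc
  have hPce : ∀ v, Pc v = π v := fun v => rfl
  set F : ℝ × V n → V n := fun z => z.2 + (a z.1 • Pc (ψ z.2 - z.2) +
    b z.1 • ((ψ z.2 - z.2) - Pc (ψ z.2 - z.2))) with hF
  have hps : ContDiff ℝ ∞ (fun z : ℝ × V n => ψ z.2 - z.2) :=
    (hψ.smooth.comp contDiff_snd).sub contDiff_snd
  have hFs : ContDiff ℝ ∞ F :=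
    contDiff_snd.add ((smul_smooth' (has.comp contDiff_fst) (Pc.contDiff.comp hps)).add
      (smul_smooth' (hbs.comp contDiff_fst) (hps.sub (Pc.contDiff.comp hps))))
  have a0 : a 0 = 0 := by simp [hadef, Real.smoothTransition.zero]
  have b0 : b 0 = 0 := by
    simp only [hbdef]
    exact Real.smoothTransition.zero_of_nonpos (by norm_num)
  have a1 : a 1 = 1 := by
    simp only [hadef]
    exact Real.smoothTransition.one_of_one_le (by norm_num)
  have b1 : b 1 = 1 := by
    simp only [hbdef]
    exact Real.smoothTransition.one_of_one_le (by norm_num)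
  have e0 : (fun x => F (0, x)) = id := by
    funext x
    simp [hF, a0, b0]
  have e1 : (fun x => F (1, x)) = ψ := by
    funext x
    simp [hF, a1, b1]
  have he : ∀ t ∈ Icc (0 : ℝ) 1, ∀ x (k : Fin n ⊕ Fin n → ℤ),
      F (t, x + lat k) = F (t, x) + lat k := by
    intro t _ x k
    simp only [hF]
    rw [hψ.equivariant, Matrix.one_mulVec, add_sub_add_right_eq_sub]
    abel
  have hnr : ∀ t ∈ Icc (0 : ℝ) 1, ∀ x, NR (fderiv ℝ (fun y => F (t, y)) x) := by
    intro t _ x
    set X : V n →L[ℝ] V n := fderiv ℝ ψ x with hX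
    have hXs : ∀ u v, om (X u) (X v) = om u v := hψ.symplectic x
    set X' : V n →ₗ[ℝ] V n := (X : V n →ₗ[ℝ] V n) with hX'
    have hX'e : ∀ v, X' v = X v := fun v => rfl
    have hXs' : ∀ u v, om (X' u) (X' v) = om u v := hXs
    obtain ⟨e, he⟩ := exists_lequiv hXs
    set Y : V n →ₗ[ℝ] V n := (e.symm : V n →ₗ[ℝ] V n) with hY
    have hYX : ∀ v, Y (X' v) = v := by
      intro v
      show e.symm (X v) = v
      rw [← he]
      simp
    have hXY : ∀ v, X' (Y v) = v := by
      intro v
      show X (e.symm v) = v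
      rw [← he]
      simp
    have hYs : ∀ u v, om (Y u) (Y v) = om u v := by
      intro u v
      rw [← hXs', hXY, hXY]
    have hd : HasFDerivAt (fun y => F (t, y)) (ContinuousLinearMap.id ℝ (V n) +
        (a t • Pc.comp (X - ContinuousLinearMap.id ℝ (V n)) +
        b t • ((X - ContinuousLinearMap.id ℝ (V n)) -
          Pc.comp (X - ContinuousLinearMap.id ℝ (V n))))) x := by
      have hd1 : HasFDerivAt (fun y => ψ y - y) (X - ContinuousLinearMap.id ℝ (V n)) x :=
        (hψ.diff x).hasFDerivAt.sub (hasFDerivAt_id x)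
      have hd2 : HasFDerivAt (fun y => Pc (ψ y - y))
          (Pc.comp (X - ContinuousLinearMap.id ℝ (V n))) x := Pc.hasFDerivAt.comp x hd1
      exact (hasFDerivAt_id x).add ((hd2.const_smul (a t)).add ((hd1.sub hd2).const_smul (b t)))
    rw [hd.fderiv]
    have hPX : BlockNR π X' := ha x
    have hQX : BlockNR ρ X' := hb x
    rcases le_total t (1 / 2) with ht | ht
    · have hbt : b t = 0 := by
        simp only [hbdef]
        exact Real.smoothTransition.zero_of_nonpos (by linarith)
      have h2 := split_NR hπ hs hXs' hXY (fun μ hμ v hv h3 => by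
          refine hPX.one hπ hs hXs' hXY hμ le_rfl hv ?_
          rw [h3]
          simp)
        (fun μ hμ c hc v hv h3 => hPX.two hπ hs hXs' hXY hμ hc hv h3)
        (t := a t) ⟨Real.smoothTransition.nonneg _, Real.smoothTransition.le_one _⟩
      have e2 : (fun v => v + a t • π (X' v - v)) = fun v =>
          (ContinuousLinearMap.id ℝ (V n) +
        (a t • Pc.comp (X - ContinuousLinearMap.id ℝ (V n)) +
        b t • ((X - ContinuousLinearMap.id ℝ (V n)) -
          Pc.comp (X - ContinuousLinearMap.id ℝ (V n))))) v := by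
        funext v
        rw [hbt]
        simp [hPce, hX'e]
      rw [e2] at h2
      exact h2
    · have hat : a t = 1 := by
        simp only [hadef]
        exact Real.smoothTransition.one_of_one_le (by linarith)
      have hmem : b t ∈ Icc (0 : ℝ) 1 :=
        ⟨Real.smoothTransition.nonneg _, Real.smoothTransition.le_one _⟩
      have h2 := NR_comp hXs (split_NR hρ hsρ hYs hYX
        (fun μ hμ v hv h3 => hQX.inj hρ hsρ hXs' hXY hμ hv h3)
        (fun μ hμ c hc v hv h3 => hQX.one hρ hsρ hXs' hXY hμ hc hv h3) (t := 1 - b t)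
        ⟨by linarith [hmem.2], by linarith [hmem.1]⟩)
      have e2 : (fun v => X v + (1 - b t) • ρ (Y (X v) - X v)) = fun v =>
          (ContinuousLinearMap.id ℝ (V n) +
        (a t • Pc.comp (X - ContinuousLinearMap.id ℝ (V n)) +
        b t • ((X - ContinuousLinearMap.id ℝ (V n)) -
          Pc.comp (X - ContinuousLinearMap.id ℝ (V n))))) v := by
        funext v
        have h3 : Y (X v) = v := hYX v
        rw [hat, h3, hρe]
        simp only [add_apply, smul_apply, sub_apply, ContinuousLinearMap.comp_apply, hPce,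
          ContinuousLinearMap.id_apply, map_sub]
        module
      rw [e2] at h2
      exact h2
  obtain ⟨G, hG0, -, hG1⟩ := exists_path (F := F) hFs he hnr (by rw [e0]; exact isTorusSymp_id)
  rw [e0] at hG0
  rw [e1] at hG1
  exact hG0.trans (hG1 hψ).symm

end Pool.Agent.Run7.h233
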